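import Mathlib
/-!
# Random subsets of a finite set
-/

set_option autoImplicit false

open Finset

namespace Pool.Agent.N475.EF

/-- the probability of `X` as a random subset of `U` -/
noncomputable def bw (U : Finset ℕ) (p : ℝ) (X : Finset ℕ) : ℝ :=
  p ^ X.card * (1 - p) ^ (U \ X).card

theorem bw_nonneg {U : Finset ℕ} {p : ℝ} (hp0 : 0 ≤ p) (hp1 : p ≤ 1) (X : Finset ℕ) :
    0 ≤ bw U p X := by
  unfold bw
  have : 0 ≤ 1 - p := by linarith
  positivity

theorem bw_prod (U : Finset ℕ) (p : ℝ) (f g : ℕ → ℝ) :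
    ∑ X ∈ U.powerset, bw U p X * ((∏ x ∈ X, f x) * ∏ x ∈ U \ X, g x) =
      ∏ x ∈ U, (p * f x + (1 - p) * g x) := by
  classical
  rw [prod_add]
  refine sum_congr rfl fun X _ => ?_
  unfold bw
  rw [prod_mul_distrib, prod_mul_distrib, prod_const, prod_const]
  ring

theorem bw_total (U : Finset ℕ) (p : ℝ) : ∑ X ∈ U.powerset, bw U p X = 1 := by
  have h := bw_prod U p (fun _ => 1) (fun _ => 1)
  simp only [prod_const_one, mul_one] at h
  rw [h]
  refine prod_eq_one fun x _ => ?_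
  ring

/-- the weighted exponential moment on a disjoint set -/
theorem bw_event (U : Finset ℕ) (p : ℝ) {S M : Finset ℕ} (hS : S ⊆ U) (hM : M ⊆ U)
    (hSM : Disjoint S M) (c : ℝ) :
    ∑ X ∈ U.powerset, bw U p X * (if S ⊆ X then c ^ (X ∩ M).card else 0) =
      p ^ S.card * (p * c + (1 - p)) ^ M.card := by
  classical
  have h := bw_prod U p (fun x => if x ∈ M then c else 1) (fun x => if x ∈ S then 0 else 1)
  have h1 : ∀ X ∈ U.powerset, bw U p X * (if S ⊆ X then c ^ (X ∩ M).card else 0) =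
      bw U p X * ((∏ x ∈ X, if x ∈ M then c else 1) * ∏ x ∈ U \ X, if x ∈ S then 0 else 1) := by
    intro X hX
    congr 1
    by_cases hSX : S ⊆ X
    · rw [if_pos hSX]
      have h2 : ∏ x ∈ U \ X, (if x ∈ S then (0 : ℝ) else 1) = 1 := by
        refine prod_eq_one fun x hx => ?_
        rw [if_neg]
        intro hxS
        exact (mem_sdiff.1 hx).2 (hSX hxS)
      rw [h2, mul_one, prod_ite_mem, prod_const]
    · rw [if_neg hSX]
      rw [not_subset] at hSX
      obtain ⟨x, hxS, hxX⟩ := hSX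
      have h2 : ∏ x ∈ U \ X, (if x ∈ S then (0 : ℝ) else 1) = 0 := by
        refine prod_eq_zero (mem_sdiff.2 ⟨hS hxS, hxX⟩) ?_
        rw [if_pos hxS]
      rw [h2, mul_zero]
  rw [sum_congr rfl h1, h]
  have h3 : ∀ x ∈ U, p * (if x ∈ M then c else 1) + (1 - p) * (if x ∈ S then 0 else 1) =
      (if x ∈ S then p else 1) * (if x ∈ M then p * c + (1 - p) else 1) := by
    intro x _
    by_cases h4 : x ∈ S
    · have h5 : x ∉ M := fun h5 => (disjoint_left.1 hSM h4 h5)
      simp [h4, h5]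
    · by_cases h5 : x ∈ M
      · simp [h4, h5]
      · simp [h4, h5]
  rw [prod_congr rfl h3, prod_mul_distrib, prod_ite_mem, prod_ite_mem, prod_const, prod_const,
    inter_eq_right.2 hS, inter_eq_right.2 hM]

theorem bw_subset (U : Finset ℕ) (p : ℝ) {S : Finset ℕ} (hS : S ⊆ U) :
    ∑ X ∈ U.powerset, bw U p X * (if S ⊆ X then 1 else 0) = p ^ S.card := by
  have h := bw_event U p hS (empty_subset U) (disjoint_empty_right S) 1
  simpa using h

theorem bw_card (U : Finset ℕ) (p : ℝ) :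
    ∑ X ∈ U.powerset, bw U p X * X.card = p * U.card := by
  classical
  have h1 : ∀ X ∈ U.powerset, bw U p X * (X.card : ℝ) =
      ∑ x ∈ U, bw U p X * (if {x} ⊆ X then 1 else 0) := by
    intro X hX
    rw [← mul_sum]
    congr 1
    rw [sum_ite, sum_const_zero, add_zero, sum_const, nsmul_eq_mul, mul_one]
    congr 2
    ext x
    rw [mem_filter, singleton_subset_iff]
    exact ⟨fun h => ⟨mem_powerset.1 hX h, h⟩, fun h => h.2⟩
  rw [sum_congr rfl h1, sum_comm]
  have h2 : ∀ x ∈ U, ∑ X ∈ U.powerset, bw U p X * (if {x} ⊆ X then 1 else 0) = p := by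
    intro x hx
    rw [bw_subset U p (singleton_subset_iff.2 hx), card_singleton, pow_one]
  rw [sum_congr rfl h2, sum_const, nsmul_eq_mul]
  ring

/-- first moment method -/
theorem exists_lt_one {U : Finset ℕ} {p : ℝ} (hp0 : 0 ≤ p) (hp1 : p ≤ 1) {F : Finset ℕ → ℝ}
    (hF : ∑ X ∈ U.powerset, bw U p X * F X < 1) : ∃ X, X ⊆ U ∧ F X < 1 := by
  by_contra hcon
  push Not at hcon
  have h1 : ∑ X ∈ U.powerset, bw U p X ≤ ∑ X ∈ U.powerset, bw U p X * F X := by
    refine sum_le_sum fun X hX => ?_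
    exact le_mul_of_one_le_right (bw_nonneg hp0 hp1 X) (hcon X (mem_powerset.1 hX))
  rw [bw_total] at h1
  linarith

end Pool.Agent.N475.EF
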