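import Pool.Agent.N475.EF.Sys
import Pool.Agent.N475.EF.Prob
/-!
# Sparse sets which are not unions of two independent sets
-/

set_option autoImplicit false

open Finset Filter

namespace Pool.Agent.N475.EF

open Pool.Agent.Y940.CT

/-- containers for the independent sets of a system -/
theorem sys_containers : ∃ r : ℕ, ∀ (U : Finset ℕ) (κ : Type) (𝒯 : Finset κ)
    (ed : κ → Finset ℕ) (t τ ℓ : ℝ), Sys U 𝒯 ed t → 1 ≤ t → 0 < τ → τ ≤ 1 → t * τ ^ 2 = 1 →
    120 ≤ τ * U.card → 0 ≤ ℓ →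
    QCov (Real.exp ℓ * τ) (fun I => I ⊆ U ∧ ∀ x ∈ 𝒯, ¬ ed x ⊆ I)
      (fun C => cnt 𝒯 ed C ≤ 1 / 40 * 𝒯.card) U
      ((Real.exp (τ * U.card * (4 * ℓ + 2))) ^ r) := by
  classical
  obtain ⟨δ, hδ0, hδ1, hcont⟩ := rcontainers 3 (by norm_num) (3 / (1 / 40)) (by norm_num)
  obtain ⟨r, hr⟩ : ∃ r : ℕ, (1 - δ) ^ r ≤ 1 / 120 := by
    obtain ⟨r, hr⟩ := exists_pow_lt_of_lt_one (show (0 : ℝ) < 1 / 120 by norm_num)
      (show 1 - δ < 1 by linarith)
    exact ⟨r, hr.le⟩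
  refine ⟨r, ?_⟩
  intro U κ 𝒯 ed t τ ℓ hS ht hτ0 hτ1 htτ hτU hℓ
  have ht0 : 0 < t := by linarith
  set ρ : ℝ := Real.exp ℓ * τ with hρ
  have hexp1 : 1 ≤ Real.exp ℓ := Real.one_le_exp hℓ
  have hρτ : τ ≤ ρ := by
    rw [hρ]
    exact le_mul_of_one_le_left hτ0.le hexp1
  have hρ0 : 0 ≤ ρ := hτ0.le.trans hρτ
  have hU0 : (0 : ℝ) ≤ U.card := Nat.cast_nonneg _
  have hB : 1 ≤ Real.exp (τ * U.card * (4 * ℓ + 2)) := Real.one_le_exp (by positivity)
  refine (iterate (P := fun I => I ⊆ U ∧ ∀ x ∈ 𝒯, ¬ ed x ⊆ I)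
    (Good := fun C => cnt 𝒯 ed C ≤ 1 / 40 * 𝒯.card) hρ0 hδ1 hB ?_ (fun I hI => hI.1) ?_ r).mono
      (fun I hI => hI) ?_ le_rfl
  · rintro I J hJI ⟨h1, h2⟩
    exact ⟨hJI.trans h1, fun x hx h => h2 x hx (h.trans hJI)⟩
  · intro C hCU hbad
    push Not at hbad
    have hsp := spread hS (show (0 : ℝ) < 1 / 40 by norm_num) ht hτ0 hτ1 htτ hCU hbad
    have hCbig : (U.card : ℝ) / 120 ≤ C.card := by
      have h1 := cnt_le_card hS C
      have h2 := hS.total
      have h3 : (U.card : ℝ) / 120 * (6 * t) ≤ C.card * (6 * t) := by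
        calc (U.card : ℝ) / 120 * (6 * t) = 1 / 40 * 𝒯.card := by
              rw [h2]
              ring
          _ ≤ C.card * (6 * t) := hbad.le.trans h1
      exact le_of_mul_le_mul_right h3 (by positivity)
    have hτC : 1 ≤ τ * C.card := by
      have : τ * (U.card / 120) ≤ τ * C.card := mul_le_mul_of_nonneg_left hCbig hτ0.le
      linarith
    have hCU' : (C.card : ℝ) ≤ U.card := by exact_mod_cast card_le_card hCU
    have hq1 : (C.card : ℝ) * τ ≤ (⌈τ * C.card⌉₊ : ℕ) := by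
      rw [mul_comm]
      exact Nat.le_ceil _
    have hq2 : ((⌈τ * C.card⌉₊ : ℕ) : ℝ) ≤ 2 * τ * C.card := by
      have := Nat.ceil_lt_add_one (show 0 ≤ τ * (C.card : ℝ) by linarith)
      linarith
    have h := hcont C (tw 𝒯 ed C) (2 * (1 / 40) * t) τ ρ ⌈τ * C.card⌉₊ (by positivity) hτ0 hρτ
      hq1 hq2 hsp ∅ (empty_subset _)
    refine h.mono ?_ ?_ le_rfl
    · rintro I _ ⟨h1, _, h2⟩
      exact ⟨h1, tw_ind h2⟩
    · have hratio : ρ / τ = Real.exp ℓ := by
        rw [hρ]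
        field_simp
      rw [hratio, ← Real.exp_nat_mul]
      have h1 : (1 + τ) ^ C.card ≤ Real.exp (τ * U.card) := by
        calc (1 + τ) ^ C.card ≤ (Real.exp τ) ^ C.card := by
              refine pow_le_pow_left₀ (by linarith) ?_ _
              have := Real.add_one_le_exp τ
              linarith
          _ = Real.exp (C.card * τ) := by rw [← Real.exp_nat_mul]
          _ ≤ Real.exp (τ * U.card) := by
              refine Real.exp_le_exp.2 ?_
              rw [mul_comm]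
              exact mul_le_mul_of_nonneg_left hCU' hτ0.le
      have h2 : Real.exp ((⌈τ * C.card⌉₊ : ℕ) * ℓ) ≤ Real.exp (2 * τ * U.card * ℓ) := by
        refine Real.exp_le_exp.2 (mul_le_mul_of_nonneg_right (hq2.trans ?_) hℓ)
        exact mul_le_mul_of_nonneg_left hCU' (by positivity)
      calc (Real.exp ((⌈τ * C.card⌉₊ : ℕ) * ℓ) * (1 + τ) ^ C.card) ^ (3 - 1)
          ≤ (Real.exp (2 * τ * U.card * ℓ) * Real.exp (τ * U.card)) ^ (3 - 1) := by
            refine pow_le_pow_left₀ (by positivity) ?_ _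
            exact mul_le_mul h2 h1 (by positivity) (Real.exp_pos _).le
        _ = Real.exp (τ * U.card * (4 * ℓ + 2)) := by
            rw [← Real.exp_add, ← Real.exp_nat_mul]
            congr 1
            push_cast
            ring
  · rintro C _ (hC | hC)
    · exact hC
    · have h1 := cnt_le_card hS C
      have h2 := hS.total
      calc cnt 𝒯 ed C ≤ C.card * (6 * t) := h1
        _ ≤ ((1 - δ) ^ r * U.card) * (6 * t) := mul_le_mul_of_nonneg_right hC (by positivity)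
        _ ≤ (1 / 120 * U.card) * (6 * t) := by
            refine mul_le_mul_of_nonneg_right ?_ (by positivity)
            exact mul_le_mul_of_nonneg_right hr hU0
        _ = 1 / 40 * 𝒯.card := by
            rw [h2]
            ring

theorem exists_ell (r : ℕ) : ∃ ℓ : ℝ, 0 ≤ ℓ ∧ 2 * r * (4 * ℓ + 2) + 1 ≤ Real.exp ℓ / 480 := by
  set c : ℝ := 480 * (8 * r + (4 * r + 1)) with hc
  have hr0 : (0 : ℝ) ≤ r := Nat.cast_nonneg r
  have hc0 : 0 ≤ c := by positivity
  refine ⟨2 * c + 1, by positivity, ?_⟩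
  have h1 : (2 * c + 1) ^ 2 / 2 ≤ Real.exp (2 * c + 1) := by
    have := Real.pow_div_factorial_le_exp (2 * c + 1) (by positivity) 2
    simpa [Nat.factorial] using this
  rw [le_div_iff₀ (by norm_num)]
  refine le_trans ?_ h1
  have h2 : (2 * (r : ℝ) * (4 * (2 * c + 1) + 2) + 1) * 480 ≤ c * (2 * c + 1) := by
    have h3 : c * (2 * c + 1) = 480 * (8 * r) * (2 * c + 1) + 480 * (4 * r + 1) * (2 * c + 1) := by
      rw [hc]
      ring
    rw [h3]
    have h4 : 480 * (4 * (r : ℝ) + 1) * 1 ≤ 480 * (4 * r + 1) * (2 * c + 1) :=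
      mul_le_mul_of_nonneg_left (by linarith) (by positivity)
    nlinarith
  nlinarith

/-- the parameters -/
theorem exists_j (ℓ : ℝ) : ∃ j : ℕ, 1 ≤ j ∧ Real.exp ℓ * (1 / 10) ^ j ≤ 1 / 480 ∧
    960 * Real.exp (6 * ℓ) * (9025 / 10000) ^ j ≤ 1 / 4 ∧ (120 : ℝ) ≤ 10 ^ j := by
  have h1 : Tendsto (fun j : ℕ => Real.exp ℓ * (1 / 10 : ℝ) ^ j) atTop (nhds 0) := by
    have := (tendsto_pow_atTop_nhds_zero_of_lt_one (show (0 : ℝ) ≤ 1 / 10 by norm_num)
      (by norm_num)).const_mul (Real.exp ℓ)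
    rwa [mul_zero] at this
  have h2 : Tendsto (fun j : ℕ => 960 * Real.exp (6 * ℓ) * (9025 / 10000 : ℝ) ^ j) atTop
      (nhds 0) := by
    have := (tendsto_pow_atTop_nhds_zero_of_lt_one (show (0 : ℝ) ≤ 9025 / 10000 by norm_num)
      (by norm_num)).const_mul (960 * Real.exp (6 * ℓ))
    rwa [mul_zero] at this
  have e1 := h1.eventually (gt_mem_nhds (show (0 : ℝ) < 1 / 480 by norm_num))
  have e2 := h2.eventually (gt_mem_nhds (show (0 : ℝ) < 1 / 4 by norm_num))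
  obtain ⟨j, hj1, hj2, hj3⟩ := (e1.and (e2.and (eventually_ge_atTop 3))).exists
  refine ⟨j, by omega, hj1.le, hj2.le, ?_⟩
  calc (120 : ℝ) ≤ 10 ^ 3 := by norm_num
    _ ≤ 10 ^ j := pow_le_pow_right₀ (by norm_num) hj3

end Pool.Agent.N475.EF
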