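import Pool.Agent.N475.EF.BaseFacts
/-!
# The halved 7-cube is a host graph
-/

set_option autoImplicit false

open Finset Matrix

namespace Pool.Agent.N475.EF

/-- the exclusive or -/
def xr (a b : Fin 128) : Fin 128 := ⟨a.val ^^^ b.val, Nat.xor_lt_two_pow (n := 7) a.isLt b.isLt⟩

theorem xr_cancel (a b : Fin 128) : xr a (xr a b) = b := by
  apply Fin.ext
  unfold xr
  simp

/-- translation by `a` -/
def xe (a : Fin 128) : Fin 128 ≃ Fin 128 := ⟨xr a, xr a, xr_cancel a, xr_cancel a⟩

theorem xor_shift (a b z : ℕ) : b ^^^ (a ^^^ z) = (a ^^^ b) ^^^ z := by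
  rw [← Nat.xor_assoc, Nat.xor_comm b a]

theorem self_shift (a z : ℕ) : a ^^^ (a ^^^ z) = z := by
  rw [← Nat.xor_assoc, Nat.xor_self, Nat.zero_xor]

theorem xor_both (a x y : ℕ) : (a ^^^ x) ^^^ (a ^^^ y) = x ^^^ y := by
  rw [Nat.xor_comm a x, Nat.xor_assoc, ← Nat.xor_assoc a a y, Nat.xor_self, Nat.zero_xor]

theorem sum_list (f : ℕ → ℕ) : ∑ z : Fin 128, f z = ((List.range 128).map f).sum := by
  rw [Finset.sum_fin_eq_sum_range]
  have h : ∀ i ∈ Finset.range 128, (if h : i < 128 then f ((⟨i, h⟩ : Fin 128) : ℕ) else 0) = f i := by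
    intro i hi
    rw [dif_pos (Finset.mem_range.1 hi)]
  rw [Finset.sum_congr rfl h]
  rfl

/-- the adjacency of the halved 7-cube -/
def hA (x y : Fin 128) : ℝ := (sn (x.val ^^^ y.val) : ℝ)

theorem hA_sq (x y : Fin 128) : hA x y * hA x y = hA x y := by
  unfold hA
  rcases sn_zo (x.val ^^^ y.val) with h | h <;> rw [h] <;> norm_num

theorem hA_nonneg (x y : Fin 128) : 0 ≤ hA x y := by
  unfold hA
  positivity

/-- the number of common neighbours -/
theorem hA_codeg (a b : Fin 128) : ∑ c, hA a c * hA b c =
    ((((List.range 128).map fun z => sn z * sn ((a.val ^^^ b.val) ^^^ z)).sum : ℕ) : ℝ) := by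
  rw [← sum_list (fun z => sn z * sn ((a.val ^^^ b.val) ^^^ z))]
  push_cast
  rw [← Equiv.sum_comp (xe a)]
  refine sum_congr rfl fun z _ => ?_
  unfold hA
  have h1 : (xe a z).val = a.val ^^^ z.val := rfl
  rw [h1, self_shift a.val z.val, xor_shift a.val b.val z.val]

theorem hA_tri (a b : Fin 128) : hA a b * ∑ c, hA a c * hA b c = 10 * hA a b := by
  rcases sn_zo (a.val ^^^ b.val) with h | h
  · have h0 : hA a b = 0 := by
      unfold hA
      rw [h]
      norm_num
    rw [h0, zero_mul, mul_zero]
  · rw [hA_codeg, fact1 _ (Nat.xor_lt_two_pow (n := 7) a.isLt b.isLt) (by rw [h]; norm_num)]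
    norm_num
    ring

theorem hA_codeg_le (a b : Fin 128) : ∑ c, hA a c * hA b c ≤
    6 + 4 * hA a b + (if a = b then 15 else 0) := by
  rw [hA_codeg]
  have h := fact2 _ (Nat.xor_lt_two_pow (n := 7) a.isLt b.isLt)
  have h2 : (a.val ^^^ b.val = 0) ↔ a = b := by
    rw [Nat.xor_eq_zero_iff, Fin.ext_iff]
  unfold hA
  by_cases hab : a = b
  · rw [if_pos hab]
    rw [if_pos (h2.2 hab)] at h
    exact_mod_cast h
  · rw [if_neg hab]
    rw [if_neg (fun h3 => hab (h2.1 h3))] at h
    exact_mod_cast h

/-- the number of edges in a common neighbourhood, by vertex -/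
def fE (d x : ℕ) : ℕ := if sn x * sn (d ^^^ x) = 0 then 0 else
  ((List.range 128).map fun y => if sn y * sn (d ^^^ y) = 0 then 0 else sn (x ^^^ y)).sum

theorem hA_E (a b : Fin 128) (hab : hA a b = 1) :
    ∑ x, ∑ y, (hA a x * hA b x) * (hA a y * hA b y) * hA x y ≤ 50 := by
  set d := a.val ^^^ b.val with hd
  have hsd : sn d ≠ 0 := by
    intro h
    unfold hA at hab
    rw [← hd, h] at hab
    norm_num at hab
  have h : ((List.range 128).map (fE d)).sum ≤ 50 :=
    fact3 d (Nat.xor_lt_two_pow (n := 7) a.isLt b.isLt) hsd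
  have h1 : ∑ x, ∑ y, (hA a x * hA b x) * (hA a y * hA b y) * hA x y =
      ((∑ x : Fin 128, fE d x.val : ℕ) : ℝ) := by
    push_cast
    rw [← Equiv.sum_comp (xe a)]
    refine sum_congr rfl fun x _ => ?_
    have hx1 : (xe a x).val = a.val ^^^ x.val := rfl
    have hP : ∀ z : Fin 128, hA a (xe a z) * hA b (xe a z) = (sn z.val * sn (d ^^^ z.val) : ℕ) := by
      intro z
      unfold hA
      have h1 : (xe a z).val = a.val ^^^ z.val := rfl
      rw [h1, self_shift a.val z.val, xor_shift a.val b.val z.val]
      push_cast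
      rfl
    have hQ : ∀ y : Fin 128, hA (xe a x) (xe a y) = (sn (x.val ^^^ y.val) : ℝ) := by
      intro y
      unfold hA
      have h1 : (xe a y).val = a.val ^^^ y.val := rfl
      rw [h1, hx1, xor_both]
    rw [← Equiv.sum_comp (xe a)]
    unfold fE
    by_cases hx : sn x.val * sn (d ^^^ x.val) = 0
    · rw [if_pos hx, Nat.cast_zero]
      refine sum_eq_zero fun y _ => ?_
      rw [hP x, hx]
      norm_num
    · rw [if_neg hx]
      have hx2 : sn x.val * sn (d ^^^ x.val) = 1 := by
        rcases sn_zo x.val with h1 | h1 <;> rcases sn_zo (d ^^^ x.val) with h2 | h2 <;>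
          rw [h1, h2] at hx ⊢ <;> simp_all
      rw [← sum_list (fun y => if sn y * sn (d ^^^ y) = 0 then 0 else sn (x.val ^^^ y))]
      push_cast
      refine sum_congr rfl fun y _ => ?_
      rw [hP x, hP y, hQ y, hx2]
      by_cases hy : sn y.val * sn (d ^^^ y.val) = 0
      · rw [if_pos hy, hy]
        norm_num
      · rw [if_neg hy]
        have hy2 : sn y.val * sn (d ^^^ y.val) = 1 := by
          rcases sn_zo y.val with h1 | h1 <;> rcases sn_zo (d ^^^ y.val) with h2 | h2 <;>
            rw [h1, h2] at hy ⊢ <;> simp_all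
        rw [hy2]
        norm_num
  rw [h1, sum_list (fE d)]
  exact_mod_cast h

theorem halved : HostP hA 10 950 := by
  refine ⟨?_, ?_, ?_, ?_, hA_tri, ?_, ?_⟩
  · intro x y
    unfold hA
    rcases sn_zo (x.val ^^^ y.val) with h | h <;> rw [h] <;> norm_num
  · intro x y
    unfold hA
    rw [Nat.xor_comm]
  · intro x
    unfold hA
    rw [Nat.xor_self]
    norm_num [sn, bit]
  · refine ⟨0, 3, ?_⟩
    unfold hA
    norm_num [sn, bit]
    decide
  · intro v
    have h1 : lk hA v + ((10 : ℝ) / 5) • dg hA v =
        (Matrix.of fun (i : Fin 7) (x : Fin 128) =>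
          hA v x * (bit i.val (v.val ^^^ x.val) : ℝ))ᴴ *
        (Matrix.of fun (i : Fin 7) (x : Fin 128) =>
          hA v x * (bit i.val (v.val ^^^ x.val) : ℝ)) := by
      ext x y
      rw [Matrix.mul_apply]
      simp only [conjTranspose_apply, Matrix.of_apply, star_trivial, Matrix.add_apply,
        Matrix.smul_apply, smul_eq_mul]
      unfold lk dg
      rw [Matrix.of_apply, diagonal_apply]
      have hx := sn_zo (v.val ^^^ x.val)
      have hy := sn_zo (v.val ^^^ y.val)
      have hX : hA v x = (sn (v.val ^^^ x.val) : ℝ) := rfl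
      have hY : hA v y = (sn (v.val ^^^ y.val) : ℝ) := rfl
      rcases hx with hx | hx
      · rw [hX, hx]
        simp
      · rcases hy with hy | hy
        · rw [hX, hY, hy]
          by_cases hxy : x = y
          · exfalso
            rw [hxy, hy] at hx
            norm_num at hx
          · simp [hxy]
        · have h := fact4 (v.val ^^^ x.val) (Nat.xor_lt_two_pow (n := 7) v.isLt x.isLt)
            (by rw [hx]; norm_num) (v.val ^^^ y.val)
            (Nat.xor_lt_two_pow (n := 7) v.isLt y.isLt) (by rw [hy]; norm_num)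
          rw [xor_both] at h
          have h2 : (v.val ^^^ x.val = v.val ^^^ y.val) ↔ x = y := by
            constructor
            · intro h3
              have h4 : xr v x = xr v y := Fin.ext h3
              rw [← xr_cancel v x, h4, xr_cancel]
            · rintro rfl
              rfl
          rw [hX, hY, hx, hy]
          have h3 : ∑ i : Fin 7, ((1 : ℕ) : ℝ) * (bit i.val (v.val ^^^ x.val) : ℝ) *
              (((1 : ℕ) : ℝ) * (bit i.val (v.val ^^^ y.val) : ℝ)) =
              ((bit 0 (v.val ^^^ x.val) * bit 0 (v.val ^^^ y.val) +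
              bit 1 (v.val ^^^ x.val) * bit 1 (v.val ^^^ y.val) +
              bit 2 (v.val ^^^ x.val) * bit 2 (v.val ^^^ y.val) +
              bit 3 (v.val ^^^ x.val) * bit 3 (v.val ^^^ y.val) +
              bit 4 (v.val ^^^ x.val) * bit 4 (v.val ^^^ y.val) +
              bit 5 (v.val ^^^ x.val) * bit 5 (v.val ^^^ y.val) +
              bit 6 (v.val ^^^ x.val) * bit 6 (v.val ^^^ y.val) : ℕ) : ℝ) := by
            simp only [Fin.sum_univ_seven]
            push_cast
            simp
          rw [h3, h]
          unfold hA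
          by_cases hxy : x = y
          · rw [if_pos hxy, if_pos (h2.2 hxy)]
            push_cast
            norm_num
          · rw [if_neg hxy, if_neg (fun h3 => hxy (h2.1 h3))]
            push_cast
            norm_num
    rw [h1]
    exact posSemidef_conjTranspose_mul_self _
  · intro a b
    rcases sn_zo (a.val ^^^ b.val) with h | h
    · have h1 : hA a b = 0 := by
        unfold hA
        rw [h]
        norm_num
      rw [h1]
      norm_num
    · have h1 : hA a b = 1 := by
        unfold hA
        rw [h]
        norm_num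
      rw [h1, one_mul, mul_one]
      set P : Fin 128 → ℝ := fun x => hA a x * hA b x with hP
      have hP0 : ∀ x, 0 ≤ P x := fun x => mul_nonneg (hA_nonneg _ _) (hA_nonneg _ _)
      have hPsum : ∑ x, P x = 10 := by
        have := hA_tri a b
        rw [h1, one_mul, mul_one] at this
        exact this
      have hPsq : ∀ x, P x * P x = P x := by
        intro x
        calc P x * P x = (hA a x * hA a x) * (hA b x * hA b x) := by
              rw [hP]
              ring
          _ = P x := by rw [hA_sq, hA_sq]
      have hE := hA_E a b h1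
      calc ∑ x, ∑ y, ∑ c, (hA a x * hA b x) * (hA a y * hA b y) * (hA x c * hA y c)
          ≤ ∑ x, ∑ y, (P x * P y) * (6 + 4 * hA x y + (if x = y then 15 else 0)) := by
            refine sum_le_sum fun x _ => sum_le_sum fun y _ => ?_
            rw [← mul_sum]
            exact mul_le_mul_of_nonneg_left (hA_codeg_le x y) (mul_nonneg (hP0 x) (hP0 y))
        _ = 6 * ((∑ x, P x) * ∑ y, P y) +
            4 * (∑ x, ∑ y, (hA a x * hA b x) * (hA a y * hA b y) * hA x y) +
            15 * ∑ x, P x := by
            rw [sum_mul_sum, mul_sum, mul_sum, mul_sum, ← sum_add_distrib, ← sum_add_distrib]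
            refine sum_congr rfl fun x _ => ?_
            have h2 : 15 * P x = ∑ y, P x * P y * (if x = y then 15 else 0) := by
              rw [sum_eq_single x]
              · rw [if_pos rfl, hPsq]
                ring
              · intro y _ hy
                rw [if_neg (Ne.symm hy), mul_zero]
              · intro h3
                exact absurd (mem_univ x) h3
            rw [h2, mul_sum, mul_sum, ← sum_add_distrib, ← sum_add_distrib]
            refine sum_congr rfl fun y _ => ?_
            rw [hP]
            ring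
        _ ≤ 950 := by
            rw [hPsum]
            linarith

/-- host graphs for every exponent -/
theorem host_exists {j : ℕ} (hj : 1 ≤ j) : HostEx (100 ^ j) (902500 ^ j) := by
  have h : HostEx 10 950 := ⟨Fin 128, inferInstance, inferInstance, hA, halved⟩
  have h2 := HostEx.tensor (by norm_num) h h
  norm_num at h2
  exact HostEx.pow (by norm_num) h2 hj

end Pool.Agent.N475.EF
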