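import Pool.Agent.N475.EF.Host
/-!
# The halved 7-cube
-/

set_option autoImplicit false

open Finset Matrix

namespace Pool.Agent.N475.EF

/-- the `i`-th binary digit -/
def bit (i n : ℕ) : ℕ := if n.testBit i then 1 else 0

/-- indicator of exactly two digits one among the first seven -/
def sn (n : ℕ) : ℕ :=
  if bit 0 n + bit 1 n + bit 2 n + bit 3 n + bit 4 n + bit 5 n + bit 6 n = 2 then 1 else 0

theorem sn_zo (n : ℕ) : sn n = 0 ∨ sn n = 1 := by
  unfold sn
  split_ifs
  · right; rfl
  · left; rfl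

theorem fact1 : ∀ d < 128, sn d ≠ 0 →
    ((List.range 128).map fun z => sn z * sn (d ^^^ z)).sum = 10 := by
  decide +kernel

theorem fact2 : ∀ w < 128, ((List.range 128).map fun z => sn z * sn (w ^^^ z)).sum ≤
    6 + 4 * sn w + (if w = 0 then 15 else 0) := by
  decide +kernel

theorem fact3 : ∀ d < 128, sn d ≠ 0 →
    ((List.range 128).map fun x => if sn x * sn (d ^^^ x) = 0 then 0 else
      ((List.range 128).map fun y => if sn y * sn (d ^^^ y) = 0 then 0 else
        sn (x ^^^ y)).sum).sum ≤ 50 := by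
  decide +kernel

theorem fact4 : ∀ x < 128, sn x ≠ 0 → ∀ y < 128, sn y ≠ 0 →
    bit 0 x * bit 0 y + bit 1 x * bit 1 y + bit 2 x * bit 2 y + bit 3 x * bit 3 y +
    bit 4 x * bit 4 y + bit 5 x * bit 5 y + bit 6 x * bit 6 y =
    sn (x ^^^ y) + (if x = y then 2 else 0) := by
  decide +kernel

end Pool.Agent.N475.EF
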