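import Pool.Agent.Y940.CT.Fp
/-!
# Iterated containers with a stopping rule
-/

set_option autoImplicit false

open Finset

namespace Pool.Agent.N475.EF

open Pool.Agent.Y940.CT

/-- The sets with property `P` are covered by containers `(T, C)`, `T ⊆ I ⊆ T ∪ C`, with
fingerprints of total weight at most `n`, where each `C` has the property `Q`. -/
def QCov (ρ : ℝ) (P Q : Finset ℕ → Prop) (U : Finset ℕ) (n : ℝ) : Prop :=
  ∃ (ι : Type) (s : Finset ι) (T C : ι → Finset ℕ),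
    (∑ i ∈ s, ρ ^ (T i).card ≤ n) ∧
    (∀ i ∈ s, T i ⊆ U ∧ C i ⊆ U ∧ Disjoint (T i) (C i) ∧ Q (C i)) ∧
    ∀ I, P I → ∃ i ∈ s, T i ⊆ I ∧ I ⊆ T i ∪ C i

theorem QCov.mono {ρ : ℝ} {P P' Q Q' : Finset ℕ → Prop} {U : Finset ℕ} {n n' : ℝ}
    (h : QCov ρ P Q U n) (hP : ∀ I, P' I → P I) (hQ : ∀ C, C ⊆ U → Q C → Q' C) (hn : n ≤ n') :
    QCov ρ P' Q' U n' := by
  obtain ⟨ι, s, T, C, h1, h2, h3⟩ := h
  exact ⟨ι, s, T, C, h1.trans hn, fun i hi => ⟨(h2 i hi).1, (h2 i hi).2.1, (h2 i hi).2.2.1,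
    hQ _ (h2 i hi).2.1 (h2 i hi).2.2.2⟩, fun I hI => h3 I (hP I hI)⟩

theorem QCov.of_RCov {ρ : ℝ} {P : Finset ℕ → Prop} {U : Finset ℕ} {n γ : ℝ}
    (h : RCov ρ ∅ P U n γ) : QCov ρ P (fun C => (C.card : ℝ) ≤ γ) U n := by
  obtain ⟨ι, s, T, C, h1, h2, h3⟩ := h
  refine ⟨ι, s, T, C, ?_, ?_, ?_⟩
  · simpa using h1
  · intro i hi
    obtain ⟨_, h5, h6, h7, h8⟩ := h2 i hi
    rw [empty_union] at h5
    exact ⟨h5, h6, h7, h8⟩
  · intro I hI
    exact h3 I (empty_subset _) hI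

theorem QCov.trivial {ρ : ℝ} {P Q : Finset ℕ → Prop} {U : Finset ℕ} {n : ℝ} (hn : 1 ≤ n)
    (hP : ∀ I, P I → I ⊆ U) (hQ : Q U) : QCov ρ P Q U n := by
  refine ⟨Unit, {()}, fun _ => ∅, fun _ => U, ?_, ?_, ?_⟩
  · simpa using hn
  · intro i _
    exact ⟨empty_subset _, Subset.refl U, disjoint_empty_left _, hQ⟩
  · intro I hI
    exact ⟨(), mem_singleton_self _, empty_subset _, by simpa using hP I hI⟩

theorem QCov.comp {ρ : ℝ} {P Q Q' : Finset ℕ → Prop} {U : Finset ℕ} {n n' : ℝ}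
    (hρ : 0 ≤ ρ) (hP : ∀ I J, J ⊆ I → P I → P J) (h : QCov ρ P Q U n) (hn' : 0 ≤ n')
    (h' : ∀ C, C ⊆ U → Q C → QCov ρ (fun I => I ⊆ C ∧ P I) Q' C n') :
    QCov ρ P Q' U (n * n') := by
  classical
  obtain ⟨ι, s, T, C, h1, h2, h3⟩ := h
  have h4 : ∀ i : {i // i ∈ s}, QCov ρ (fun I => I ⊆ C i.1 ∧ P I) Q' (C i.1) n' :=
    fun i => h' _ (h2 i.1 i.2).2.1 (h2 i.1 i.2).2.2.2
  choose κ s' T' C' g1 g2 g3 using h4
  refine ⟨Σ i : {i // i ∈ s}, κ i, s.attach.sigma s', fun x => T x.1.1 ∪ T' x.1 x.2,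
    fun x => C' x.1 x.2, ?_, ?_, ?_⟩
  · rw [sum_sigma]
    have h5 : ∀ i ∈ s.attach, ∑ j ∈ s' i, ρ ^ (T i.1 ∪ T' i j).card ≤
        ρ ^ (T i.1).card * n' := by
      intro i _
      refine le_trans (le_of_eq ?_) (mul_le_mul_of_nonneg_left (g1 i) (by positivity))
      rw [mul_sum]
      refine sum_congr rfl fun j hj => ?_
      have h6 : Disjoint (T i.1) (T' i j) :=
        disjoint_of_subset_right (g2 i j hj).1 (h2 i.1 i.2).2.2.1
      rw [card_union_of_disjoint h6, pow_add]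
    refine (sum_le_sum h5).trans ?_
    rw [← sum_mul, sum_attach s (fun i => ρ ^ (T i).card)]
    exact mul_le_mul_of_nonneg_right h1 hn'
  · rintro ⟨i, j⟩ hij
    rw [mem_sigma] at hij
    obtain ⟨h5, h6, h7, _⟩ := h2 i.1 i.2
    obtain ⟨g5, g6, g7, g8⟩ := g2 i j hij.2
    simp only
    refine ⟨union_subset h5 (g5.trans h6), g6.trans h6, ?_, g8⟩
    rw [disjoint_union_left]
    exact ⟨disjoint_of_subset_right g6 h7, g7⟩
  · intro I hI
    obtain ⟨i, hi, hTI, hIT⟩ := h3 I hI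
    obtain ⟨j, hj, hTJ, hJT⟩ := g3 ⟨i, hi⟩ (I \ T i) ⟨fun x hx => by
      rw [mem_sdiff] at hx
      rcases mem_union.1 (hIT hx.1) with h | h
      · exact absurd h hx.2
      · exact h, hP I _ sdiff_subset hI⟩
    refine ⟨⟨⟨i, hi⟩, j⟩, mem_sigma.2 ⟨mem_attach _ _, hj⟩, ?_, ?_⟩
    · exact union_subset hTI (hTJ.trans sdiff_subset)
    · intro x hx
      simp only
      by_cases hxT : x ∈ T i
      · exact mem_union_left _ (mem_union_left _ hxT)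
      · rcases mem_union.1 (hJT (mem_sdiff.2 ⟨hx, hxT⟩)) with h | h
        · exact mem_union_left _ (mem_union_right _ h)
        · exact mem_union_right _ h

/-- **Iteration with a stopping rule.** -/
theorem iterate {ρ δ B : ℝ} {P Good : Finset ℕ → Prop} {U : Finset ℕ}
    (hρ : 0 ≤ ρ) (hδ : δ ≤ 1) (hB : 1 ≤ B) (hP : ∀ I J, J ⊆ I → P I → P J)
    (hPU : ∀ I, P I → I ⊆ U)
    (hstep : ∀ C, C ⊆ U → ¬ Good C →
      RCov ρ ∅ (fun I => I ⊆ C ∧ P I) C B ((1 - δ) * C.card)) (r : ℕ) :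
    QCov ρ P (fun C => Good C ∨ (C.card : ℝ) ≤ (1 - δ) ^ r * U.card) U (B ^ r) := by
  classical
  have hB0 : 0 ≤ B := by linarith
  induction r with
  | zero =>
    refine QCov.trivial (by simp) hPU (Or.inr ?_)
    simp
  | succ r ih =>
    rw [pow_succ]
    refine QCov.comp hρ hP ih hB0 ?_
    rintro C hCU hC
    by_cases hg : Good C
    · exact QCov.trivial hB (fun I hI => hI.1) (Or.inl hg)
    · have h1 : (C.card : ℝ) ≤ (1 - δ) ^ r * U.card := hC.resolve_left hg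
      refine (QCov.of_RCov (hstep C hCU hg)).mono (fun I hI => hI) ?_ le_rfl
      intro C' _ hC'
      right
      calc (C'.card : ℝ) ≤ (1 - δ) * C.card := hC'
        _ ≤ (1 - δ) * ((1 - δ) ^ r * U.card) :=
            mul_le_mul_of_nonneg_left h1 (by linarith)
        _ = (1 - δ) ^ (r + 1) * U.card := by ring

end Pool.Agent.N475.EF
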