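import Mathlib
/-!
# Host graphs and their tensor products
-/

set_option autoImplicit false

open Finset Matrix
open scoped Kronecker

namespace Pool.Agent.N475.EF

/-- the adjacency matrix of the link of `v` -/
def lk {V : Type} (A : V → V → ℝ) (v : V) : Matrix V V ℝ :=
  Matrix.of fun x y => A v x * A v y * A x y

/-- the diagonal matrix of the neighbourhood of `v` -/
def dg {V : Type} [DecidableEq V] (A : V → V → ℝ) (v : V) : Matrix V V ℝ :=
  Matrix.diagonal fun x => A v x

/-- graphs in which each edge is in exactly `t` triangles, with links whose least eigenvalue is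
at least `-t/5`, and with at most `h` copies of `H₀` over each edge -/
structure HostP {V : Type} [Fintype V] [DecidableEq V] (A : V → V → ℝ) (t h : ℝ) : Prop where
  zo : ∀ x y, A x y = 0 ∨ A x y = 1
  sym : ∀ x y, A x y = A y x
  irr : ∀ x, A x x = 0
  ex : ∃ x y, A x y = 1
  tri : ∀ a b, A a b * ∑ c, A a c * A b c = t * A a b
  psd : ∀ v, (lk A v + (t / 5) • dg A v).PosSemidef
  cnt : ∀ a b, A a b * ∑ x, ∑ y, ∑ c,
    (A a x * A b x) * (A a y * A b y) * (A x c * A y c) ≤ h * A a b

theorem HostP.nonneg {V : Type} [Fintype V] [DecidableEq V] {A : V → V → ℝ} {t h : ℝ}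
    (H : HostP A t h) (x y : V) : 0 ≤ A x y := by
  rcases H.zo x y with h | h <;> rw [h] <;> norm_num

theorem HostP.lap {V : Type} [Fintype V] [DecidableEq V] {A : V → V → ℝ} {t h : ℝ}
    (H : HostP A t h) (v : V) : (t • dg A v - lk A v).PosSemidef := by
  have hsymm : ∀ i j, lk A v i j = lk A v j i := by
    intro i j
    unfold lk
    simp only [Matrix.of_apply]
    rw [H.sym i j]
    ring
  have hrow : ∀ i, ∑ j, lk A v i j = t * A v i := by
    intro i
    rw [← H.tri v i, mul_sum]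
    refine sum_congr rfl fun j _ => ?_
    unfold lk
    simp only [Matrix.of_apply]
    ring
  have hnn : ∀ i j, 0 ≤ lk A v i j := by
    intro i j
    unfold lk
    simp only [Matrix.of_apply]
    exact mul_nonneg (mul_nonneg (H.nonneg _ _) (H.nonneg _ _)) (H.nonneg _ _)
  refine PosSemidef.of_dotProduct_mulVec_nonneg ?_ ?_
  · ext i j
    simp only [conjTranspose_apply, Matrix.sub_apply, Matrix.smul_apply, smul_eq_mul, star_trivial]
    rw [hsymm j i]
    unfold dg
    rw [diagonal_apply, diagonal_apply]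
    by_cases hij : i = j
    · subst hij
      rfl
    · rw [if_neg hij, if_neg (Ne.symm hij)]
  · intro x
    have h1 : star x ⬝ᵥ ((t • dg A v - lk A v) *ᵥ x) =
        t * ∑ i, A v i * x i ^ 2 - ∑ i, ∑ j, lk A v i j * (x i * x j) := by
      simp only [dotProduct, mulVec, Matrix.sub_apply, Matrix.smul_apply, smul_eq_mul, star_trivial,
        Pi.star_apply]
      rw [mul_sum, ← sum_sub_distrib]
      refine sum_congr rfl fun i _ => ?_
      have h2 : ∑ j, (t * dg A v i j - lk A v i j) * x j =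
          t * A v i * x i - ∑ j, lk A v i j * x j := by
        simp_rw [sub_mul]
        rw [sum_sub_distrib]
        congr 1
        unfold dg
        simp [diagonal_apply]
      rw [h2, mul_sub, mul_sum]
      congr 1
      · ring
      · refine sum_congr rfl fun j _ => ?_
        ring
    have h2 : 0 ≤ ∑ i, ∑ j, lk A v i j * (x i - x j) ^ 2 :=
      sum_nonneg fun i _ => sum_nonneg fun j _ => mul_nonneg (hnn i j) (sq_nonneg _)
    have h3 : ∑ i, ∑ j, lk A v i j * (x i - x j) ^ 2 =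
        ∑ i, ∑ j, lk A v i j * x i ^ 2 + ∑ i, ∑ j, lk A v i j * x j ^ 2 -
        2 * ∑ i, ∑ j, lk A v i j * (x i * x j) := by
      rw [mul_sum, ← sum_add_distrib, ← sum_sub_distrib]
      refine sum_congr rfl fun i _ => ?_
      rw [mul_sum, ← sum_add_distrib, ← sum_sub_distrib]
      refine sum_congr rfl fun j _ => ?_
      ring
    have h4 : ∑ i, ∑ j, lk A v i j * x i ^ 2 = t * ∑ i, A v i * x i ^ 2 := by
      rw [mul_sum]
      refine sum_congr rfl fun i _ => ?_
      rw [← sum_mul, hrow]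
      ring
    have h5 : ∑ i, ∑ j, lk A v i j * x j ^ 2 = t * ∑ i, A v i * x i ^ 2 := by
      rw [sum_comm, ← h4]
      refine sum_congr rfl fun i _ => sum_congr rfl fun j _ => ?_
      rw [hsymm]
    rw [h1]
    linarith

/-- the tensor product -/
def tp {V W : Type} (A : V → V → ℝ) (B : W → W → ℝ) (x y : V × W) : ℝ := A x.1 y.1 * B x.2 y.2

theorem sum_tp {V W : Type} [Fintype V] [Fintype W] (f : V → ℝ) (g : W → ℝ) :
    ∑ z : V × W, f z.1 * g z.2 = (∑ v, f v) * ∑ w, g w := by
  rw [sum_mul_sum, Fintype.sum_prod_type]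

theorem HostP.tensor {V W : Type} [Fintype V] [DecidableEq V] [Fintype W] [DecidableEq W]
    {A : V → V → ℝ} {B : W → W → ℝ} {t h t' h' : ℝ} (hh : 0 ≤ h)
    (HA : HostP A t h) (HB : HostP B t' h') : HostP (tp A B) (t * t') (h * h') := by
  refine ⟨?_, ?_, ?_, ?_, ?_, ?_, ?_⟩
  · intro x y
    unfold tp
    rcases HA.zo x.1 y.1 with h1 | h1
    · left
      rw [h1, zero_mul]
    · rw [h1, one_mul]
      exact HB.zo _ _
  · intro x y
    unfold tp
    rw [HA.sym, HB.sym]
  · intro x
    unfold tp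
    rw [HA.irr, zero_mul]
  · obtain ⟨a, b, h1⟩ := HA.ex
    obtain ⟨c, d, h2⟩ := HB.ex
    refine ⟨(a, c), (b, d), ?_⟩
    unfold tp
    simp only
    rw [h1, h2, mul_one]
  · intro a b
    have h1 : ∑ c, tp A B a c * tp A B b c =
        (∑ c, A a.1 c * A b.1 c) * ∑ c, B a.2 c * B b.2 c := by
      rw [← sum_tp]
      refine sum_congr rfl fun c _ => ?_
      unfold tp
      ring
    rw [h1]
    have h2 := HA.tri a.1 b.1
    have h3 := HB.tri a.2 b.2
    unfold tp
    calc A a.1 b.1 * B a.2 b.2 * ((∑ c, A a.1 c * A b.1 c) * ∑ c, B a.2 c * B b.2 c)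
        = (A a.1 b.1 * ∑ c, A a.1 c * A b.1 c) * (B a.2 b.2 * ∑ c, B a.2 c * B b.2 c) := by ring
      _ = _ := by
        rw [h2, h3]
        ring
  · intro v
    have h1 : lk (tp A B) v + (t * t' / 5) • dg (tp A B) v =
        (5 / 6 : ℝ) • ((lk A v.1 + (t / 5) • dg A v.1) ⊗ₖ (lk B v.2 + (t' / 5) • dg B v.2)) +
        (1 / 6 : ℝ) • ((t • dg A v.1 - lk A v.1) ⊗ₖ (t' • dg B v.2 - lk B v.2)) := by
      ext ⟨i1, i2⟩ ⟨j1, j2⟩
      have e1 : lk (tp A B) v (i1, i2) (j1, j2) = lk A v.1 i1 j1 * lk B v.2 i2 j2 := by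
        unfold lk tp
        simp only [Matrix.of_apply]
        ring
      have e2 : dg (tp A B) v (i1, i2) (j1, j2) = dg A v.1 i1 j1 * dg B v.2 i2 j2 := by
        unfold dg tp
        simp only [diagonal_apply, Prod.mk.injEq]
        by_cases h1 : i1 = j1 <;> by_cases h2 : i2 = j2 <;> simp [h1, h2]
      simp only [Matrix.add_apply, Matrix.smul_apply, Matrix.sub_apply, kroneckerMap_apply, smul_eq_mul]
      rw [e1, e2]
      ring
    rw [h1]
    refine PosSemidef.add ?_ ?_
    · exact PosSemidef.smul ((HA.psd v.1).kronecker (HB.psd v.2)) (by norm_num)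
    · exact PosSemidef.smul ((HA.lap v.1).kronecker (HB.lap v.2)) (by norm_num)
  · intro a b
    have h1 : ∑ x, ∑ y, ∑ c, (tp A B a x * tp A B b x) * (tp A B a y * tp A B b y) *
        (tp A B x c * tp A B y c) =
        (∑ x, ∑ y, ∑ c, (A a.1 x * A b.1 x) * (A a.1 y * A b.1 y) * (A x c * A y c)) *
        ∑ x, ∑ y, ∑ c, (B a.2 x * B b.2 x) * (B a.2 y * B b.2 y) * (B x c * B y c) := by
      have e1 : ∀ x y : V × W, ∑ c, (tp A B a x * tp A B b x) * (tp A B a y * tp A B b y) *
          (tp A B x c * tp A B y c) =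
          (∑ c, (A a.1 x.1 * A b.1 x.1) * (A a.1 y.1 * A b.1 y.1) * (A x.1 c * A y.1 c)) *
          ∑ c, (B a.2 x.2 * B b.2 x.2) * (B a.2 y.2 * B b.2 y.2) * (B x.2 c * B y.2 c) := by
        intro x y
        rw [← sum_tp]
        refine sum_congr rfl fun c _ => ?_
        unfold tp
        ring
      have e2 : ∀ x : V × W, ∑ y, ∑ c, (tp A B a x * tp A B b x) * (tp A B a y * tp A B b y) *
          (tp A B x c * tp A B y c) =
          (∑ y, ∑ c, (A a.1 x.1 * A b.1 x.1) * (A a.1 y * A b.1 y) * (A x.1 c * A y c)) *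
          ∑ y, ∑ c, (B a.2 x.2 * B b.2 x.2) * (B a.2 y * B b.2 y) * (B x.2 c * B y c) := by
        intro x
        rw [← sum_tp]
        exact sum_congr rfl fun y _ => e1 x y
      rw [← sum_tp]
      exact sum_congr rfl fun x _ => e2 x
    rw [h1]
    have h2 := HA.cnt a.1 b.1
    have h3 := HB.cnt a.2 b.2
    have h4 := HA.nonneg a.1 b.1
    have h5 := HB.nonneg a.2 b.2
    have h6 : 0 ≤ ∑ x, ∑ y, ∑ c, (B a.2 x * B b.2 x) * (B a.2 y * B b.2 y) * (B x c * B y c) := by
      refine sum_nonneg fun x _ => sum_nonneg fun y _ => sum_nonneg fun c _ => ?_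
      have := HB.nonneg
      exact mul_nonneg (mul_nonneg (mul_nonneg (this _ _) (this _ _))
        (mul_nonneg (this _ _) (this _ _))) (mul_nonneg (this _ _) (this _ _))
    set SA := ∑ x, ∑ y, ∑ c, (A a.1 x * A b.1 x) * (A a.1 y * A b.1 y) * (A x c * A y c)
    set SB := ∑ x, ∑ y, ∑ c, (B a.2 x * B b.2 x) * (B a.2 y * B b.2 y) * (B x c * B y c)
    unfold tp
    calc A a.1 b.1 * B a.2 b.2 * (SA * SB) = (A a.1 b.1 * SA) * (B a.2 b.2 * SB) := by ring
      _ ≤ (h * A a.1 b.1) * (h' * B a.2 b.2) :=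
          mul_le_mul h2 h3 (mul_nonneg h5 h6) (mul_nonneg hh h4)
      _ = _ := by ring

/-- existence of a host graph -/
def HostEx (t h : ℝ) : Prop :=
  ∃ (V : Type) (_ : Fintype V) (_ : DecidableEq V) (A : V → V → ℝ), HostP A t h

theorem HostEx.tensor {t h t' h' : ℝ} (hh : 0 ≤ h) (HA : HostEx t h) (HB : HostEx t' h') :
    HostEx (t * t') (h * h') := by
  obtain ⟨V, i1, i2, A, hA⟩ := HA
  obtain ⟨W, i3, i4, B, hB⟩ := HB
  exact ⟨V × W, inferInstance, inferInstance, tp A B, hA.tensor hh hB⟩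

theorem HostEx.pow {t h : ℝ} (hh : 0 ≤ h) (H : HostEx t h) {j : ℕ} (hj : 1 ≤ j) :
    HostEx (t ^ j) (h ^ j) := by
  induction j, hj using Nat.le_induction with
  | base => simpa using H
  | succ j _ ih =>
    rw [pow_succ, pow_succ]
    exact HostEx.tensor (pow_nonneg hh j) ih H

end Pool.Agent.N475.EF
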