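import Pool.Agent.N475.EF.Abstract
/-!
# The sparse random set
-/

set_option autoImplicit false

open Finset

namespace Pool.Agent.N475.EF

open Pool.Agent.Y940.CT

theorem random_set : ∃ j : ℕ, 1 ≤ j ∧ ∀ (U : Finset ℕ) (κ κ' : Type) (𝒯 : Finset κ)
    (ed : κ → Finset ℕ) (𝓗 : Finset κ') (ed' : κ' → Finset ℕ),
    Sys U 𝒯 ed (100 ^ j) → (100 : ℝ) ^ j ≤ U.card →
    (∀ x ∈ 𝓗, ed' x ⊆ U ∧ (ed' x).card = 7) →
    (𝓗.card : ℝ) ≤ 2 * U.card * 902500 ^ j →
    ∃ X, X ⊆ U ∧ (∀ x ∈ 𝓗, ¬ ed' x ⊆ X) ∧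
      ∀ R, R ⊆ X → ∃ x ∈ 𝒯, ed x ⊆ R ∨ ed x ⊆ X \ R := by
  classical
  obtain ⟨r, hr⟩ := sys_containers
  obtain ⟨ℓ, hℓ0, hℓ⟩ := exists_ell r
  obtain ⟨j, hj1, hj2, hj3, hj4⟩ := exists_j ℓ
  refine ⟨j, hj1, ?_⟩
  intro U κ κ' 𝒯 ed 𝓗 ed' hS hU hH1 hH2
  set τ : ℝ := (1 / 10) ^ j with hτ
  have hτ0 : 0 < τ := by positivity
  have hτ1 : τ ≤ 1 := pow_le_one₀ (by norm_num) (by norm_num)
  have ht1 : (1 : ℝ) ≤ 100 ^ j := one_le_pow₀ (by norm_num)
  have htτ : (100 : ℝ) ^ j * τ ^ 2 = 1 := by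
    rw [hτ, ← pow_mul, mul_comm j 2, pow_mul, ← mul_pow]
    norm_num
  set N : ℝ := (U.card : ℝ) with hN
  have hN0 : 0 < N := lt_of_lt_of_le (by positivity) hU
  have hτN : 120 ≤ τ * N := by
    have h1 : τ * 100 ^ j = 10 ^ j := by
      rw [hτ, ← mul_pow]
      norm_num
    calc (120 : ℝ) ≤ 10 ^ j := hj4
      _ = τ * 100 ^ j := h1.symm
      _ ≤ τ * N := mul_le_mul_of_nonneg_left hU hτ0.le
  set p : ℝ := Real.exp ℓ * τ with hp
  have hp0 : 0 < p := mul_pos (Real.exp_pos _) hτ0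
  have hp1 : p ≤ 1 / 480 := hj2
  have hp2 : p ≤ 1 := by linarith
  obtain ⟨ι, s, T, C, hw, hTC, hcov⟩ := hr U κ 𝒯 ed (100 ^ j) τ ℓ hS ht1 hτ0 hτ1 htτ hτN hℓ0
  set B : ℝ := Real.exp (τ * N * (4 * ℓ + 2)) ^ r with hB
  have hB0 : 0 ≤ B := by positivity
  set m : ℝ := p * N / 480 with hm
  have hm0 : 0 < m := by positivity
  -- the uncovered part
  set M : ι × ι → Finset ℕ := fun z => (U \ (C z.1 ∪ C z.2)) \ (T z.1 ∪ T z.2) with hM
  set pr : Finset (ι × ι) := (s ×ˢ s).filter fun z =>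
    Disjoint (T z.1) (T z.2) ∧ ((T z.1 ∪ T z.2).card : ℝ) ≤ 4 * p * N with hpr
  have hMcard : ∀ z ∈ pr, N / 120 ≤ (M z).card := by
    intro z hz
    obtain ⟨h1, _, h2⟩ := mem_filter.1 hz
    obtain ⟨h3, h4⟩ := mem_product.1 h1
    have h5 := uncovered hS (by linarith) (hTC _ h3).2.1 (hTC _ h3).2.2.2 (hTC _ h4).2.2.2
    have h6 : (U \ (C z.1 ∪ C z.2)).card ≤ (M z).card + (T z.1 ∪ T z.2).card := by
      exact card_le_card_sdiff_add_card (s := U \ (C z.1 ∪ C z.2)) (t := T z.1 ∪ T z.2)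
    have h7 : ((U \ (C z.1 ∪ C z.2)).card : ℝ) ≤ (M z).card + (T z.1 ∪ T z.2).card := by
      exact_mod_cast h6
    have h8 : 4 * p * N ≤ N / 120 := by
      have : p * N ≤ 1 / 480 * N := mul_le_mul_of_nonneg_right hp1 hN0.le
      linarith
    linarith
  set F : Finset ℕ → ℝ := fun X => (∑ x ∈ 𝓗, (if ed' x ⊆ X then (1 : ℝ) else 0)) / m +
    (X.card : ℝ) / (4 * p * N) +
    ∑ z ∈ pr, (if T z.1 ∪ T z.2 ⊆ X then Real.exp (-1) ^ (X ∩ M z).card else 0) * Real.exp m
    with hF
  have hsum : ∑ X ∈ U.powerset, bw U p X * F X < 1 := by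
    have h1 : ∑ X ∈ U.powerset, bw U p X * F X =
        (∑ x ∈ 𝓗, ∑ X ∈ U.powerset, bw U p X * (if ed' x ⊆ X then (1 : ℝ) else 0)) / m +
        (∑ X ∈ U.powerset, bw U p X * X.card) / (4 * p * N) +
        ∑ z ∈ pr, (∑ X ∈ U.powerset, bw U p X *
          (if T z.1 ∪ T z.2 ⊆ X then Real.exp (-1) ^ (X ∩ M z).card else 0)) * Real.exp m := by
      rw [sum_comm, sum_div, sum_div]
      simp_rw [sum_mul]
      rw [sum_comm (s := pr), ← sum_add_distrib, ← sum_add_distrib]
      refine sum_congr rfl fun X _ => ?_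
      rw [hF]
      simp only
      rw [mul_add, mul_add, ← mul_sum, mul_div_assoc, mul_div_assoc]
      congr 1
      rw [mul_sum]
      refine sum_congr rfl fun z _ => ?_
      ring
    rw [h1]
    have hA : (∑ x ∈ 𝓗, ∑ X ∈ U.powerset, bw U p X * (if ed' x ⊆ X then (1 : ℝ) else 0)) / m ≤
        1 / 4 := by
      have h2 : ∑ x ∈ 𝓗, ∑ X ∈ U.powerset, bw U p X * (if ed' x ⊆ X then (1 : ℝ) else 0) =
          𝓗.card * p ^ 7 := by
        rw [← nsmul_eq_mul, ← sum_const]
        refine sum_congr rfl fun x hx => ?_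
        rw [bw_subset U p (hH1 x hx).1, (hH1 x hx).2]
      rw [h2, div_le_iff₀ hm0]
      have h3 : p ^ 6 * 902500 ^ j = Real.exp (6 * ℓ) * (9025 / 10000) ^ j := by
        have h4 : Real.exp (6 * ℓ) = Real.exp ℓ ^ 6 := by
          rw [← Real.exp_nat_mul]
          norm_num
        rw [h4, hp, hτ, mul_pow, mul_assoc]
        congr 1
        rw [← pow_mul, mul_comm j 6, pow_mul, ← mul_pow]
        norm_num
      calc (𝓗.card : ℝ) * p ^ 7 ≤ (2 * N * 902500 ^ j) * p ^ 7 :=
            mul_le_mul_of_nonneg_right hH2 (by positivity)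
        _ = (2 * (p ^ 6 * 902500 ^ j)) * (p * N) := by ring
        _ = (2 * (Real.exp (6 * ℓ) * (9025 / 10000) ^ j)) * (p * N) := by rw [h3]
        _ ≤ (1 / 4 / 480) * (p * N) := by
            refine mul_le_mul_of_nonneg_right ?_ (by positivity)
            linarith
        _ = 1 / 4 * m := by
            rw [hm]
            ring
    have hBd : (∑ X ∈ U.powerset, bw U p X * X.card) / (4 * p * N) ≤ 1 / 4 := by
      rw [bw_card, div_le_iff₀ (by positivity)]
      exact le_of_eq (by ring)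
    have hCd : ∑ z ∈ pr, (∑ X ∈ U.powerset, bw U p X *
          (if T z.1 ∪ T z.2 ⊆ X then Real.exp (-1) ^ (X ∩ M z).card else 0)) * Real.exp m ≤
        1 / 4 := by
      have h2 : ∀ z ∈ pr, (∑ X ∈ U.powerset, bw U p X *
          (if T z.1 ∪ T z.2 ⊆ X then Real.exp (-1) ^ (X ∩ M z).card else 0)) * Real.exp m ≤
          (p ^ (T z.1).card * p ^ (T z.2).card) * Real.exp (-m) := by
        intro z hz
        obtain ⟨h3, h4, _⟩ := mem_filter.1 hz
        obtain ⟨h5, h6⟩ := mem_product.1 h3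
        rw [bw_event U p (union_subset (hTC _ h5).1 (hTC _ h6).1)
          (sdiff_subset.trans sdiff_subset) disjoint_sdiff,
          card_union_of_disjoint h4, pow_add, mul_assoc]
        refine mul_le_mul_of_nonneg_left ?_ (by positivity)
        have h7 : p * Real.exp (-1) + (1 - p) ≤ Real.exp (-(p / 2)) := by
          have h8 : Real.exp (-1) ≤ 1 / 2 := by
            rw [Real.exp_neg, inv_le_comm₀ (Real.exp_pos _) (by norm_num)]
            have := Real.add_one_le_exp (1 : ℝ)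
            norm_num at this ⊢
            linarith
          have h9 := Real.add_one_le_exp (-(p / 2))
          nlinarith
        have h8 : 0 ≤ p * Real.exp (-1) + (1 - p) := by
          have := Real.exp_pos (-1)
          nlinarith
        calc (p * Real.exp (-1) + (1 - p)) ^ (M z).card * Real.exp m
            ≤ (Real.exp (-(p / 2))) ^ (M z).card * Real.exp m :=
              mul_le_mul_of_nonneg_right (pow_le_pow_left₀ h8 h7 _) (Real.exp_pos _).le
          _ = Real.exp ((M z).card * (-(p / 2)) + m) := by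
              rw [← Real.exp_nat_mul, ← Real.exp_add]
          _ ≤ Real.exp (-m) := by
              refine Real.exp_le_exp.2 ?_
              have h9 := hMcard z hz
              have h10 : N / 120 * (p / 2) ≤ (M z).card * (p / 2) :=
                mul_le_mul_of_nonneg_right h9 (by positivity)
              have h11 : N / 120 * (p / 2) = 2 * m := by
                rw [hm]
                ring
              linarith
      have h3 : ∑ z ∈ pr, (p ^ (T z.1).card * p ^ (T z.2).card) * Real.exp (-m) ≤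
          (B * B) * Real.exp (-m) := by
        rw [← sum_mul]
        refine mul_le_mul_of_nonneg_right ?_ (Real.exp_pos _).le
        calc ∑ z ∈ pr, p ^ (T z.1).card * p ^ (T z.2).card
            ≤ ∑ z ∈ s ×ˢ s, p ^ (T z.1).card * p ^ (T z.2).card :=
              sum_le_sum_of_subset_of_nonneg (filter_subset _ _) fun z _ _ => by positivity
          _ = (∑ i ∈ s, p ^ (T i).card) * ∑ i ∈ s, p ^ (T i).card := by
              rw [sum_mul_sum, sum_product]
          _ ≤ B * B := mul_le_mul hw hw (sum_nonneg fun i _ => by positivity) hB0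
      have h4 : (B * B) * Real.exp (-m) ≤ 1 / 4 := by
        have h5 : B * B * Real.exp (-m) =
            Real.exp (-(τ * N * (Real.exp ℓ / 480 - 2 * r * (4 * ℓ + 2)))) := by
          rw [hB, ← Real.exp_nat_mul, ← Real.exp_add, ← Real.exp_add, hm, hp]
          congr 1
          ring
        rw [h5]
        have h6 : 120 ≤ τ * N * (Real.exp ℓ / 480 - 2 * r * (4 * ℓ + 2)) := by
          have h7 : 1 ≤ Real.exp ℓ / 480 - 2 * r * (4 * ℓ + 2) := by linarith
          calc (120 : ℝ) ≤ τ * N := hτN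
            _ ≤ _ := le_mul_of_one_le_right (by positivity) h7
        rw [Real.exp_neg, inv_le_comm₀ (Real.exp_pos _) (by norm_num)]
        have h7 := Real.add_one_le_exp (τ * N * (Real.exp ℓ / 480 - 2 * r * (4 * ℓ + 2)))
        norm_num at h7 ⊢
        linarith
      exact (sum_le_sum h2).trans (h3.trans h4)
    linarith
  obtain ⟨X, hXU, hX⟩ := exists_lt_one hp0.le hp2 hsum
  rw [hF] at hX
  simp only at hX
  have hn1 : 0 ≤ (∑ x ∈ 𝓗, (if ed' x ⊆ X then (1 : ℝ) else 0)) / m :=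
    div_nonneg (sum_nonneg fun x _ => by split_ifs <;> norm_num) hm0.le
  have hn2 : 0 ≤ (X.card : ℝ) / (4 * p * N) := by positivity
  have hn3 : ∀ z ∈ pr, 0 ≤ (if T z.1 ∪ T z.2 ⊆ X then Real.exp (-1) ^ (X ∩ M z).card else 0) *
      Real.exp m := by
    intro z _
    refine mul_nonneg ?_ (Real.exp_pos _).le
    split_ifs
    · positivity
    · exact le_rfl
  have hn4 := sum_nonneg hn3
  have hX1 : ((𝓗.filter fun x => ed' x ⊆ X).card : ℝ) < m := by
    have h1 : (∑ x ∈ 𝓗, (if ed' x ⊆ X then (1 : ℝ) else 0)) / m < 1 := by linarith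
    rw [div_lt_one hm0, sum_boole] at h1
    exact h1
  have hX2 : (X.card : ℝ) ≤ 4 * p * N := by
    have h1 : (X.card : ℝ) / (4 * p * N) < 1 := by linarith
    rw [div_lt_one (by positivity)] at h1
    exact h1.le
  have hX3 : ∀ z ∈ pr, T z.1 ∪ T z.2 ⊆ X → m < (X ∩ M z).card := by
    intro z hz hTX
    have h1 := single_le_sum hn3 hz
    rw [if_pos hTX, ← Real.exp_nat_mul, ← Real.exp_add] at h1
    have h2 : Real.exp (((X ∩ M z).card : ℝ) * -1 + m) < 1 := by linarith
    rw [Real.exp_lt_one_iff] at h2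
    linarith
  -- the deletion
  have hne : ∀ x ∈ 𝓗, (ed' x).Nonempty := by
    intro x hx
    rw [← card_pos, (hH1 x hx).2]
    norm_num
  set del : Finset ℕ := (𝓗.filter fun x => ed' x ⊆ X).biUnion fun x =>
    if h : (ed' x).Nonempty then {h.choose} else ∅ with hdel
  have hdelcard : (del.card : ℝ) < m := by
    refine lt_of_le_of_lt ?_ hX1
    rw [hdel]
    have h1 := card_biUnion_le_card_mul (𝓗.filter fun x => ed' x ⊆ X) (fun x =>
      if h : (ed' x).Nonempty then ({h.choose} : Finset ℕ) else ∅) 1 (fun x _ => by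
        split_ifs <;> simp)
    rw [mul_one] at h1
    exact_mod_cast h1
  refine ⟨X \ del, sdiff_subset.trans hXU, ?_, ?_⟩
  · intro x hx hxX
    have h1 := hne x hx
    have h2 : h1.choose ∈ del := by
      rw [hdel, mem_biUnion]
      refine ⟨x, mem_filter.2 ⟨hx, hxX.trans sdiff_subset⟩, ?_⟩
      rw [dif_pos h1]
      exact mem_singleton_self _
    exact (mem_sdiff.1 (hxX h1.choose_spec)).2 h2
  · intro R hR
    by_contra hcon
    push Not at hcon
    obtain ⟨i, hi, hi1, hi2⟩ := hcov R ⟨(hR.trans sdiff_subset).trans hXU,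
      fun x hx => (hcon x hx).1⟩
    obtain ⟨k, hk, hk1, hk2⟩ := hcov ((X \ del) \ R) ⟨(sdiff_subset.trans sdiff_subset).trans hXU,
      fun x hx => (hcon x hx).2⟩
    have hdisj : Disjoint (T i) (T k) :=
      disjoint_of_subset_left hi1 (disjoint_of_subset_right hk1 disjoint_sdiff)
    have hTX : T i ∪ T k ⊆ X :=
      union_subset (hi1.trans (hR.trans sdiff_subset))
        (hk1.trans (sdiff_subset.trans sdiff_subset))
    have hz : (i, k) ∈ pr := by
      rw [hpr, mem_filter, mem_product]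
      refine ⟨⟨hi, hk⟩, hdisj, ?_⟩
      have : ((T i ∪ T k).card : ℝ) ≤ X.card := by exact_mod_cast card_le_card hTX
      exact this.trans hX2
    have h1 := hX3 (i, k) hz hTX
    have h2 : X ∩ M (i, k) ⊆ del := by
      intro x hx
      by_contra hxd
      obtain ⟨hxX, hxM⟩ := mem_inter.1 hx
      rw [hM] at hxM
      simp only at hxM
      rw [mem_sdiff, mem_sdiff] at hxM
      obtain ⟨⟨_, h3⟩, h4⟩ := hxM
      by_cases hxR : x ∈ R
      · rcases mem_union.1 (hi2 hxR) with h | h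
        · exact h4 (mem_union_left _ h)
        · exact h3 (mem_union_left _ h)
      · have h5 : x ∈ (X \ del) \ R := mem_sdiff.2 ⟨mem_sdiff.2 ⟨hxX, hxd⟩, hxR⟩
        rcases mem_union.1 (hk2 h5) with h | h
        · exact h4 (mem_union_right _ h)
        · exact h3 (mem_union_right _ h)
    have h3 : ((X ∩ M (i, k)).card : ℝ) ≤ del.card := by exact_mod_cast card_le_card h2
    linarith

end Pool.Agent.N475.EF
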