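import Pool.Agent.N475.EF.Base
import Pool.Agent.N475.EF.Main
/-!
# Triangles and copies of `H₀` in a host graph
-/

set_option autoImplicit false

open Finset

namespace Pool.Agent.N475.EF

variable {V : Type} [Fintype V] [DecidableEq V]

/-- numbering of the pairs -/
noncomputable def enc (e : Sym2 V) : ℕ := (Fintype.equivFin (Sym2 V) e).val

theorem enc_inj {e f : Sym2 V} : enc e = enc f ↔ e = f := by
  constructor
  · intro h
    exact (Fintype.equivFin (Sym2 V)).injective (Fin.ext h)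
  · rintro rfl
    rfl

/-- the host graph -/
def hG (A : V → V → ℝ) (t h : ℝ) (H : HostP A t h) : SimpleGraph V where
  Adj a b := A a b = 1
  symm := ⟨fun a b hab => by rw [H.sym]; exact hab⟩
  loopless := ⟨fun a ha => by rw [H.irr] at ha; norm_num at ha⟩

open Classical in
/-- the ground set: the edges -/
noncomputable def hU (A : V → V → ℝ) : Finset ℕ :=
  (univ.filter fun p : V × V => A p.1 p.2 = 1).image fun p => enc s(p.1, p.2)

theorem mem_hU {A : V → V → ℝ} {t h : ℝ} (H : HostP A t h) {a b : V} :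
    enc s(a, b) ∈ hU A ↔ A a b = 1 := by
  classical
  unfold hU
  rw [mem_image]
  constructor
  · rintro ⟨⟨x, y⟩, hp, he⟩
    rw [enc_inj, Sym2.eq_iff] at he
    have h1 := (mem_filter.1 hp).2
    rcases he with ⟨rfl, rfl⟩ | ⟨rfl, rfl⟩
    · exact h1
    · rw [H.sym]
      exact h1
  · intro hab
    exact ⟨(a, b), mem_filter.2 ⟨mem_univ _, hab⟩, rfl⟩

theorem exists_of_mem_hU {A : V → V → ℝ} {n : ℕ} (hn : n ∈ hU A) :
    ∃ a b, n = enc s(a, b) ∧ A a b = 1 := by
  classical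
  unfold hU at hn
  obtain ⟨⟨a, b⟩, hp, rfl⟩ := mem_image.1 hn
  exact ⟨a, b, rfl, (mem_filter.1 hp).2⟩

theorem pair_card_le (n : ℕ) :
    (univ.filter fun p : V × V => enc s(p.1, p.2) = n).card ≤ 2 := by
  classical
  by_cases hne : (univ.filter fun p : V × V => enc s(p.1, p.2) = n).Nonempty
  · obtain ⟨⟨a, b⟩, hp⟩ := hne
    have h1 := (mem_filter.1 hp).2
    have h2 : (univ.filter fun p : V × V => enc s(p.1, p.2) = n) ⊆ {(a, b), (b, a)} := by
      rintro ⟨x, y⟩ hxy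
      have h3 := (mem_filter.1 hxy).2
      simp only at h1 h3
      rw [← h1, enc_inj, Sym2.eq_iff] at h3
      rw [mem_insert, mem_singleton, Prod.mk.injEq, Prod.mk.injEq]
      exact h3
    exact (card_le_card h2).trans card_le_two
  · rw [not_nonempty_iff_eq_empty] at hne
    rw [hne]
    simp

theorem sum_A {A : V → V → ℝ} {t h : ℝ} (H : HostP A t h) :
    ∑ a, ∑ b, A a b = 2 * (hU A).card := by
  classical
  have h1 : ∑ a, ∑ b, A a b = ((univ.filter fun p : V × V => A p.1 p.2 = 1).card : ℝ) := by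
    rw [← Fintype.sum_prod_type (f := fun p : V × V => A p.1 p.2), card_filter]
    push_cast
    refine sum_congr rfl fun p _ => ?_
    rcases H.zo p.1 p.2 with h | h
    · rw [h]
      norm_num
    · rw [h]
      norm_num
  rw [h1]
  have h2 := card_eq_sum_card_image (fun p : V × V => enc s(p.1, p.2))
    (univ.filter fun p : V × V => A p.1 p.2 = 1)
  have h3 : ∀ n ∈ hU A, ((univ.filter fun p : V × V => A p.1 p.2 = 1).filter
      fun p => enc s(p.1, p.2) = n).card = 2 := by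
    intro n hn
    obtain ⟨a, b, rfl, hab⟩ := exists_of_mem_hU hn
    have hne : a ≠ b := by
      rintro rfl
      rw [H.irr] at hab
      norm_num at hab
    have h4 : ((univ.filter fun p : V × V => A p.1 p.2 = 1).filter
      fun p => enc s(p.1, p.2) = enc s(a, b)) = {(a, b), (b, a)} := by
      ext ⟨x, y⟩
      rw [mem_filter, mem_filter, mem_insert, mem_singleton, Prod.mk.injEq, Prod.mk.injEq, enc_inj,
        Sym2.eq_iff]
      constructor
      · exact fun h => h.2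
      · rintro (⟨rfl, rfl⟩ | ⟨rfl, rfl⟩)
        · exact ⟨⟨mem_univ _, hab⟩, Or.inl ⟨rfl, rfl⟩⟩
        · refine ⟨⟨mem_univ _, ?_⟩, Or.inr ⟨rfl, rfl⟩⟩
          rw [H.sym]
          exact hab
    rw [h4, card_pair]
    intro h5
    rw [Prod.mk.injEq] at h5
    exact hne h5.1
  have h4 : (univ.filter fun p : V × V => A p.1 p.2 = 1).card = 2 * (hU A).card := by
    rw [h2]
    change ∑ n ∈ hU A, _ = _
    rw [sum_congr rfl h3, sum_const, smul_eq_mul, mul_comm]
  rw [h4]
  push_cast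
  ring

open Classical in
/-- the ordered triangles -/
noncomputable def hT (A : V → V → ℝ) : Finset (V × V × V) :=
  univ.filter fun x => A x.1 x.2.1 = 1 ∧ A x.2.1 x.2.2 = 1 ∧ A x.1 x.2.2 = 1

/-- the edges of a triangle -/
noncomputable def hed (x : V × V × V) : Finset ℕ :=
  {enc s(x.1, x.2.1), enc s(x.2.1, x.2.2), enc s(x.1, x.2.2)}

theorem mem_hT {A : V → V → ℝ} {a b c : V} :
    (a, b, c) ∈ hT A ↔ A a b = 1 ∧ A b c = 1 ∧ A a c = 1 := by
  unfold hT
  rw [mem_filter]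
  exact ⟨fun h => h.2, fun h => ⟨mem_univ _, h⟩⟩

theorem mem_hed {a b c : V} {n : ℕ} :
    n ∈ hed (a, b, c) ↔ n = enc s(a, b) ∨ n = enc s(b, c) ∨ n = enc s(a, c) := by
  unfold hed
  rw [mem_insert, mem_insert, mem_singleton]

/-- sums over the ordered triangles -/
theorem sum_hT {A : V → V → ℝ} {t h : ℝ} (H : HostP A t h) (F : V × V × V → ℝ) :
    ∑ x ∈ hT A, F x = ∑ a, ∑ b, ∑ c, A a b * A b c * A a c * F (a, b, c) := by
  classical
  unfold hT
  rw [sum_filter, Fintype.sum_prod_type]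
  refine sum_congr rfl fun a _ => ?_
  rw [Fintype.sum_prod_type]
  refine sum_congr rfl fun b _ => sum_congr rfl fun c _ => ?_
  simp only
  rcases H.zo a b with h1 | h1 <;> rcases H.zo b c with h2 | h2 <;>
    rcases H.zo a c with h3 | h3 <;> rw [h1, h2, h3] <;> norm_num

theorem hT_card {A : V → V → ℝ} {t h : ℝ} (H : HostP A t h) :
    ((hT A).card : ℝ) = 2 * (hU A).card * t := by
  have h1 := sum_hT H (fun _ => 1)
  rw [sum_const, nsmul_eq_mul, mul_one] at h1
  rw [h1]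
  have h2 : ∀ a b : V, ∑ c, A a b * A b c * A a c * 1 = t * A a b := by
    intro a b
    rw [← H.tri a b, mul_sum]
    refine sum_congr rfl fun c _ => ?_
    ring
  simp_rw [h2]
  simp_rw [← mul_sum]
  rw [sum_A H]
  ring

theorem ne_of_A {A : V → V → ℝ} {t h : ℝ} (H : HostP A t h) {a b : V} (hab : A a b = 1) :
    a ≠ b := by
  rintro rfl
  rw [H.irr] at hab
  norm_num at hab

/-- the triangles over a given first edge -/
theorem card_first {A : V → V → ℝ} {t h : ℝ} (H : HostP A t h) (ht : 0 ≤ t) (n : ℕ) :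
    (((hT A).filter fun x => enc s(x.1, x.2.1) = n).card : ℝ) ≤ 2 * t := by
  classical
  have h1 : (((hT A).filter fun x => enc s(x.1, x.2.1) = n).card : ℝ) =
      ∑ x ∈ hT A, (if enc s(x.1, x.2.1) = n then (1 : ℝ) else 0) := by
    rw [card_filter]
    push_cast
    rfl
  rw [h1, sum_hT H]
  simp only
  have h2 : ∀ a b : V, ∑ c, A a b * A b c * A a c * (if enc s(a, b) = n then (1 : ℝ) else 0) ≤
      t * (if enc s(a, b) = n then (1 : ℝ) else 0) := by
    intro a b
    rw [← sum_mul]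
    have h3 : ∑ c, A a b * A b c * A a c = t * A a b := by
      rw [← H.tri a b, mul_sum]
      refine sum_congr rfl fun c _ => ?_
      ring
    rw [h3]
    refine mul_le_mul_of_nonneg_right ?_ (by split_ifs <;> norm_num)
    rcases H.zo a b with h4 | h4 <;> rw [h4] <;> linarith
  refine (sum_le_sum fun a _ => sum_le_sum fun b _ => h2 a b).trans ?_
  simp_rw [← mul_sum]
  rw [← Fintype.sum_prod_type (f := fun p : V × V => if enc s(p.1, p.2) = n then (1 : ℝ) else 0),
    sum_boole, mul_comm]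
  refine mul_le_mul_of_nonneg_right ?_ ht
  exact_mod_cast pair_card_le n

theorem deg1_bound {A : V → V → ℝ} {t h : ℝ} (H : HostP A t h) (ht : 0 ≤ t) (n : ℕ) :
    (((hT A).filter fun x => n ∈ hed x).card : ℝ) ≤ 6 * t := by
  classical
  set S := (hT A).filter fun x => enc s(x.1, x.2.1) = n with hS
  have h1 := card_first H ht n
  have hb : ((hT A).filter fun x => enc s(x.2.1, x.2.2) = n).card ≤ S.card := by
    refine card_le_card_of_injOn (fun x => (x.2.1, x.2.2, x.1)) ?_ ?_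
    · rintro ⟨a, b, c⟩ hx
      rw [mem_coe, mem_filter, mem_hT] at hx
      rw [hS, mem_coe, mem_filter, mem_hT]
      refine ⟨⟨hx.1.2.1, ?_, ?_⟩, hx.2⟩
      · rw [H.sym]
        exact hx.1.2.2
      · rw [H.sym]
        exact hx.1.1
    · rintro ⟨a, b, c⟩ _ ⟨a', b', c'⟩ _ hx
      simp only [Prod.mk.injEq] at hx ⊢
      exact ⟨hx.2.2, hx.1, hx.2.1⟩
  have hc : ((hT A).filter fun x => enc s(x.1, x.2.2) = n).card ≤ S.card := by
    refine card_le_card_of_injOn (fun x => (x.1, x.2.2, x.2.1)) ?_ ?_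
    · rintro ⟨a, b, c⟩ hx
      rw [mem_coe, mem_filter, mem_hT] at hx
      rw [hS, mem_coe, mem_filter, mem_hT]
      refine ⟨⟨hx.1.2.2, ?_, hx.1.1⟩, hx.2⟩
      rw [H.sym]
      exact hx.1.2.1
    · rintro ⟨a, b, c⟩ _ ⟨a', b', c'⟩ _ hx
      simp only [Prod.mk.injEq] at hx ⊢
      exact ⟨hx.1, hx.2.2, hx.2.1⟩
  have hsub : ((hT A).filter fun x => n ∈ hed x) ⊆ S ∪
      (((hT A).filter fun x => enc s(x.2.1, x.2.2) = n) ∪
        ((hT A).filter fun x => enc s(x.1, x.2.2) = n)) := by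
    rintro ⟨a, b, c⟩ hx
    obtain ⟨h2, h3⟩ := mem_filter.1 hx
    rw [mem_hed] at h3
    rw [mem_union, mem_union, hS, mem_filter, mem_filter, mem_filter]
    rcases h3 with h3 | h3 | h3
    · exact Or.inl ⟨h2, h3.symm⟩
    · exact Or.inr (Or.inl ⟨h2, h3.symm⟩)
    · exact Or.inr (Or.inr ⟨h2, h3.symm⟩)
  have h2 : ((hT A).filter fun x => n ∈ hed x).card ≤ S.card + (S.card + S.card) :=
    (card_le_card hsub).trans ((card_union_le _ _).trans (Nat.add_le_add_left
      ((card_union_le _ _).trans (Nat.add_le_add hb hc)) _))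
  have h3 : (((hT A).filter fun x => n ∈ hed x).card : ℝ) ≤ S.card + (S.card + S.card) := by
    exact_mod_cast h2
  linarith

/-- two consecutive edges determine the triangle -/
theorem card_two {A : V → V → ℝ} {t h : ℝ} (H : HostP A t h) (u v : ℕ) :
    ((hT A).filter fun x => enc s(x.1, x.2.1) = u ∧ enc s(x.2.1, x.2.2) = v).card ≤ 1 := by
  rw [card_le_one]
  rintro ⟨a, b, c⟩ hx ⟨a', b', c'⟩ hx'
  rw [mem_filter, mem_hT] at hx hx'
  obtain ⟨⟨h1, h2, h3⟩, h4, h5⟩ := hx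
  obtain ⟨⟨h1', h2', h3'⟩, h4', h5'⟩ := hx'
  simp only at h4 h5 h4' h5'
  have e1 : s(a, b) = s(a', b') := enc_inj.1 (h4.trans h4'.symm)
  have e2 : s(b, c) = s(b', c') := enc_inj.1 (h5.trans h5'.symm)
  have n1 := ne_of_A H h1
  have n2 := ne_of_A H h2
  have n3 := ne_of_A H h3
  have n2' := ne_of_A H h2'
  have n3' := ne_of_A H h3'
  rw [Sym2.eq_iff] at e1 e2
  rcases e1 with ⟨rfl, rfl⟩ | ⟨rfl, rfl⟩
  · rcases e2 with ⟨_, rfl⟩ | ⟨rfl, _⟩
    · rfl
    · exact absurd rfl n2'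
  · rcases e2 with ⟨rfl, _⟩ | ⟨rfl, rfl⟩
    · exact absurd rfl n1
    · exact absurd rfl n3

theorem deg2_bound {A : V → V → ℝ} {t h : ℝ} (H : HostP A t h) (u v : ℕ) (huv : u ≠ v) :
    ((hT A).filter fun x => u ∈ hed x ∧ v ∈ hed x).card ≤ 6 := by
  classical
  have hinj : ∀ (f : V × V × V → V × V × V) (u v : ℕ) (P : V × V × V → Prop) [DecidablePred P],
      Function.Injective f → (∀ x ∈ hT A, P x → f x ∈ (hT A).filter fun x =>
        enc s(x.1, x.2.1) = u ∧ enc s(x.2.1, x.2.2) = v) → ((hT A).filter P).card ≤ 1 := by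
    intro f u v P _ hf hP
    refine (card_le_card_of_injOn f ?_ hf.injOn).trans (card_two H u v)
    intro x hx
    obtain ⟨h1, h2⟩ := mem_filter.1 hx
    exact hP x h1 h2
  have c1 := hinj id u v (fun x => enc s(x.1, x.2.1) = u ∧ enc s(x.2.1, x.2.2) = v)
    Function.injective_id (by
      intro x h1 h2
      exact mem_filter.2 ⟨h1, h2⟩)
  have c2 := hinj id v u (fun x => enc s(x.1, x.2.1) = v ∧ enc s(x.2.1, x.2.2) = u)
    Function.injective_id (by
      intro x h1 h2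
      exact mem_filter.2 ⟨h1, h2⟩)
  have c3 := hinj (fun x => (x.2.1, x.1, x.2.2)) u v
    (fun x => enc s(x.1, x.2.1) = u ∧ enc s(x.1, x.2.2) = v)
    (by
      rintro ⟨a, b, c⟩ ⟨a', b', c'⟩ hx
      simp only [Prod.mk.injEq] at hx ⊢
      exact ⟨hx.2.1, hx.1, hx.2.2⟩) (by
      rintro ⟨a, b, c⟩ h1 h2
      rw [mem_hT] at h1
      rw [mem_filter, mem_hT]
      refine ⟨⟨?_, h1.2.2, h1.2.1⟩, ?_, h2.2⟩
      · rw [H.sym]
        exact h1.1
      · simp only at h2 ⊢
        rw [Sym2.eq_swap]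
        exact h2.1)
  have c4 := hinj (fun x => (x.2.1, x.1, x.2.2)) v u
    (fun x => enc s(x.1, x.2.1) = v ∧ enc s(x.1, x.2.2) = u)
    (by
      rintro ⟨a, b, c⟩ ⟨a', b', c'⟩ hx
      simp only [Prod.mk.injEq] at hx ⊢
      exact ⟨hx.2.1, hx.1, hx.2.2⟩) (by
      rintro ⟨a, b, c⟩ h1 h2
      rw [mem_hT] at h1
      rw [mem_filter, mem_hT]
      refine ⟨⟨?_, h1.2.2, h1.2.1⟩, ?_, h2.2⟩
      · rw [H.sym]
        exact h1.1
      · simp only at h2 ⊢
        rw [Sym2.eq_swap]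
        exact h2.1)
  have c5 := hinj (fun x => (x.2.1, x.2.2, x.1)) u v
    (fun x => enc s(x.2.1, x.2.2) = u ∧ enc s(x.1, x.2.2) = v)
    (by
      rintro ⟨a, b, c⟩ ⟨a', b', c'⟩ hx
      simp only [Prod.mk.injEq] at hx ⊢
      exact ⟨hx.2.2, hx.1, hx.2.1⟩) (by
      rintro ⟨a, b, c⟩ h1 h2
      rw [mem_hT] at h1
      rw [mem_filter, mem_hT]
      refine ⟨⟨h1.2.1, ?_, ?_⟩, h2.1, ?_⟩
      · rw [H.sym]
        exact h1.2.2
      · rw [H.sym]
        exact h1.1
      · simp only at h2 ⊢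
        rw [Sym2.eq_swap]
        exact h2.2)
  have c6 := hinj (fun x => (x.2.1, x.2.2, x.1)) v u
    (fun x => enc s(x.2.1, x.2.2) = v ∧ enc s(x.1, x.2.2) = u)
    (by
      rintro ⟨a, b, c⟩ ⟨a', b', c'⟩ hx
      simp only [Prod.mk.injEq] at hx ⊢
      exact ⟨hx.2.2, hx.1, hx.2.1⟩) (by
      rintro ⟨a, b, c⟩ h1 h2
      rw [mem_hT] at h1
      rw [mem_filter, mem_hT]
      refine ⟨⟨h1.2.1, ?_, ?_⟩, h2.1, ?_⟩
      · rw [H.sym]
        exact h1.2.2
      · rw [H.sym]
        exact h1.1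
      · simp only at h2 ⊢
        rw [Sym2.eq_swap]
        exact h2.2)
  have hsub : ((hT A).filter fun x => u ∈ hed x ∧ v ∈ hed x) ⊆
      ((hT A).filter fun x => enc s(x.1, x.2.1) = u ∧ enc s(x.2.1, x.2.2) = v) ∪
      (((hT A).filter fun x => enc s(x.1, x.2.1) = v ∧ enc s(x.2.1, x.2.2) = u) ∪
      (((hT A).filter fun x => enc s(x.1, x.2.1) = u ∧ enc s(x.1, x.2.2) = v) ∪
      (((hT A).filter fun x => enc s(x.1, x.2.1) = v ∧ enc s(x.1, x.2.2) = u) ∪
      (((hT A).filter fun x => enc s(x.2.1, x.2.2) = u ∧ enc s(x.1, x.2.2) = v) ∪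
      ((hT A).filter fun x => enc s(x.2.1, x.2.2) = v ∧ enc s(x.1, x.2.2) = u))))) := by
    rintro ⟨a, b, c⟩ hx
    obtain ⟨h2, h3, h4⟩ := mem_filter.1 hx
    rw [mem_hed] at h3 h4
    simp only [mem_union, mem_filter, h2, true_and]
    rcases h3 with h3 | h3 | h3 <;> rcases h4 with h4 | h4 | h4
    · exact absurd (h3.trans h4.symm) huv
    · exact Or.inl ⟨h3.symm, h4.symm⟩
    · exact Or.inr (Or.inr (Or.inl ⟨h3.symm, h4.symm⟩))
    · exact Or.inr (Or.inl ⟨h4.symm, h3.symm⟩)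
    · exact absurd (h3.trans h4.symm) huv
    · exact Or.inr (Or.inr (Or.inr (Or.inr (Or.inl ⟨h3.symm, h4.symm⟩))))
    · exact Or.inr (Or.inr (Or.inr (Or.inl ⟨h4.symm, h3.symm⟩)))
    · exact Or.inr (Or.inr (Or.inr (Or.inr (Or.inr ⟨h4.symm, h3.symm⟩))))
    · exact absurd (h3.trans h4.symm) huv
  refine (card_le_card hsub).trans ?_
  refine (card_union_le _ _).trans ?_
  refine (Nat.add_le_add c1 (card_union_le _ _)).trans ?_
  refine (Nat.add_le_add_left (Nat.add_le_add c2 (card_union_le _ _)) _).trans ?_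
  refine (Nat.add_le_add_left (Nat.add_le_add_left (Nat.add_le_add c3 (card_union_le _ _)) _)
    _).trans ?_
  refine (Nat.add_le_add_left (Nat.add_le_add_left (Nat.add_le_add_left (Nat.add_le_add c4
    (card_union_le _ _)) _) _) _).trans ?_
  omega

end Pool.Agent.N475.EF
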