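import Pool.Agent.N475.EF.Inst
/-!
# Supersaturation in host graphs and the existence of the Folkman graph
-/

set_option autoImplicit false

open Finset Matrix

namespace Pool.Agent.N475.EF

variable {V : Type} [Fintype V] [DecidableEq V]

/-- the sign of a pair -/
noncomputable def sg (R : Finset ℕ) (a b : V) : ℝ := if enc s(a, b) ∈ R then 1 else -1

theorem sg_comm (R : Finset ℕ) (a b : V) : sg R a b = sg R b a := by
  unfold sg
  rw [Sym2.eq_swap]

theorem sg_sq (R : Finset ℕ) (a b : V) : sg R a b * sg R a b = 1 := by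
  unfold sg
  split_ifs <;> norm_num

theorem link_bound {A : V → V → ℝ} {t h : ℝ} (H : HostP A t h) (R : Finset ℕ) (v : V) :
    -(t / 5 * ∑ x, A v x) ≤ ∑ x, ∑ y, A v x * A v y * A x y * (sg R v x * sg R v y) := by
  have h1 := (H.psd v).dotProduct_mulVec_nonneg (fun x => sg R v x)
  have h2 : star (fun x => sg R v x) ⬝ᵥ ((lk A v + (t / 5) • dg A v) *ᵥ fun x => sg R v x) =
      ∑ x, ∑ y, A v x * A v y * A x y * (sg R v x * sg R v y) + t / 5 * ∑ x, A v x := by
    simp only [dotProduct, mulVec, Matrix.add_apply, Matrix.smul_apply, smul_eq_mul, star_trivial,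
      Pi.star_apply]
    rw [mul_sum, ← sum_add_distrib]
    refine sum_congr rfl fun x _ => ?_
    have h3 : ∑ y, (lk A v x y + t / 5 * dg A v x y) * sg R v y =
        ∑ y, lk A v x y * sg R v y + t / 5 * (A v x * sg R v x) := by
      simp_rw [add_mul]
      rw [sum_add_distrib]
      congr 1
      unfold dg
      simp [diagonal_apply, mul_assoc]
    rw [h3, mul_add, mul_sum]
    congr 1
    · refine sum_congr rfl fun y _ => ?_
      unfold lk
      rw [Matrix.of_apply]
      ring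
    · have := sg_sq R v x
      calc sg R v x * (t / 5 * (A v x * sg R v x)) = t / 5 * A v x * (sg R v x * sg R v x) := by
            ring
        _ = _ := by rw [this, mul_one]
  rw [h2] at h1
  linarith

theorem ss_bound {A : V → V → ℝ} {t h : ℝ} (H : HostP A t h) (R : Finset ℕ) :
    ((hT A).card : ℝ) / 10 ≤ cnt (hT A) hed R + cnt (hT A) hed (hU A \ R) := by
  classical
  have hpt : ∀ x ∈ hT A, (if hed x ⊆ R then (1 : ℝ) else 0) +
      (if hed x ⊆ hU A \ R then (1 : ℝ) else 0) =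
      1 / 4 * (1 + sg R x.1 x.2.1 * sg R x.2.1 x.2.2 + sg R x.2.1 x.2.2 * sg R x.1 x.2.2 +
        sg R x.1 x.2.1 * sg R x.1 x.2.2) := by
    rintro ⟨a, b, c⟩ hx
    rw [mem_hT] at hx
    have u1 := (mem_hU H).2 hx.1
    have u2 := (mem_hU H).2 hx.2.1
    have u3 := (mem_hU H).2 hx.2.2
    unfold hed sg
    simp only [insert_subset_iff, singleton_subset_iff, mem_sdiff, u1, u2, u3, true_and]
    by_cases h1 : enc s(a, b) ∈ R <;> by_cases h2 : enc s(b, c) ∈ R <;>
      by_cases h3 : enc s(a, c) ∈ R <;> simp [h1, h2, h3] <;> norm_num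
  have h1 : cnt (hT A) hed R + cnt (hT A) hed (hU A \ R) = ∑ x ∈ hT A,
      1 / 4 * (1 + sg R x.1 x.2.1 * sg R x.2.1 x.2.2 + sg R x.2.1 x.2.2 * sg R x.1 x.2.2 +
        sg R x.1 x.2.1 * sg R x.1 x.2.2) := by
    rw [← sum_congr rfl hpt, sum_add_distrib]
    unfold cnt
    rw [card_filter, card_filter]
    push_cast
    rfl
  rw [h1, ← mul_sum, sum_add_distrib, sum_add_distrib, sum_add_distrib, sum_const, nsmul_eq_mul,
    mul_one]
  have htot : -((hT A).card : ℝ) / 5 =
      ∑ v : V, -(t / 5 * ∑ x, A v x) := by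
    rw [sum_neg_distrib, ← mul_sum, sum_A H, hT_card H]
    ring
  have s1 : -((hT A).card : ℝ) / 5 ≤ ∑ x ∈ hT A, sg R x.1 x.2.1 * sg R x.2.1 x.2.2 := by
    rw [sum_hT H (fun x => sg R x.1 x.2.1 * sg R x.2.1 x.2.2), htot, sum_comm]
    refine sum_le_sum fun b _ => (link_bound H R b).trans (le_of_eq ?_)
    refine sum_congr rfl fun a _ => sum_congr rfl fun c _ => ?_
    simp only
    rw [H.sym b a, sg_comm R b a]
  have s2 : -((hT A).card : ℝ) / 5 ≤ ∑ x ∈ hT A, sg R x.2.1 x.2.2 * sg R x.1 x.2.2 := by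
    rw [sum_hT H (fun x => sg R x.2.1 x.2.2 * sg R x.1 x.2.2), htot]
    have h2 : ∑ a : V, ∑ b : V, ∑ c : V, A a b * A b c * A a c * (sg R b c * sg R a c) =
        ∑ c : V, ∑ a : V, ∑ b : V, A a b * A b c * A a c * (sg R b c * sg R a c) := by
      have h3 : ∀ a : V, ∑ b : V, ∑ c : V, A a b * A b c * A a c * (sg R b c * sg R a c) =
          ∑ c : V, ∑ b : V, A a b * A b c * A a c * (sg R b c * sg R a c) := fun a => sum_comm
      rw [sum_congr rfl fun a _ => h3 a, sum_comm]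
    simp only
    rw [h2]
    refine sum_le_sum fun c _ => (link_bound H R c).trans (le_of_eq ?_)
    refine sum_congr rfl fun a _ => sum_congr rfl fun b _ => ?_
    rw [H.sym c a, H.sym c b, sg_comm R c a, sg_comm R c b]
    ring
  have s3 : -((hT A).card : ℝ) / 5 ≤ ∑ x ∈ hT A, sg R x.1 x.2.1 * sg R x.1 x.2.2 := by
    rw [sum_hT H (fun x => sg R x.1 x.2.1 * sg R x.1 x.2.2), htot]
    refine sum_le_sum fun a _ => (link_bound H R a).trans (le_of_eq ?_)
    refine sum_congr rfl fun b _ => sum_congr rfl fun c _ => ?_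
    simp only
    ring
  linarith

theorem hsys {A : V → V → ℝ} {t h : ℝ} (H : HostP A t h) (ht : 0 ≤ t) :
    Sys (hU A) (hT A) hed t := by
  classical
  refine ⟨?_, ?_, hT_card H, deg1_bound H ht, ?_, fun R _ => ss_bound H R⟩
  · rintro ⟨a, b, c⟩ hx
    rw [mem_hT] at hx
    unfold hed
    simp only [insert_subset_iff, singleton_subset_iff]
    exact ⟨(mem_hU H).2 hx.1, (mem_hU H).2 hx.2.1, (mem_hU H).2 hx.2.2⟩
  · rintro ⟨a, b, c⟩ hx
    rw [mem_hT] at hx
    have n1 := ne_of_A H hx.1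
    have n2 := ne_of_A H hx.2.1
    have n3 := ne_of_A H hx.2.2
    unfold hed
    simp only
    rw [card_insert_of_notMem, card_pair]
    · intro he
      rw [enc_inj, Sym2.eq_iff] at he
      rcases he with ⟨h1, _⟩ | ⟨h1, h2⟩
      · exact n1 h1.symm
      · exact n3 h2.symm
    · rw [mem_insert, mem_singleton, enc_inj, enc_inj, Sym2.eq_iff, Sym2.eq_iff]
      rintro ((⟨h1, _⟩ | ⟨h1, h2⟩) | (⟨_, h1⟩ | ⟨h1, h2⟩))
      · exact n1 h1
      · exact n3 h1
      · exact n2 h1
      · exact n3 h1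
  · intro u v huv
    exact_mod_cast deg2_bound H u v huv

open Classical in
/-- the copies of `H₀` -/
noncomputable def hH (A : V → V → ℝ) : Finset (V × V × V × V × V) :=
  univ.filter fun z => (A z.1 z.2.1 = 1 ∧ A z.1 z.2.2.1 = 1 ∧ A z.2.1 z.2.2.1 = 1 ∧
    A z.1 z.2.2.2.1 = 1 ∧ A z.2.1 z.2.2.2.1 = 1 ∧ A z.2.2.1 z.2.2.2.2 = 1 ∧
    A z.2.2.2.1 z.2.2.2.2 = 1) ∧ z.2.2.1 ≠ z.2.2.2.1 ∧ z.1 ≠ z.2.2.2.2 ∧ z.2.1 ≠ z.2.2.2.2

/-- the edges of a copy of `H₀` -/
noncomputable def hed' (z : V × V × V × V × V) : Finset ℕ :=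
  ({s(z.1, z.2.1), s(z.1, z.2.2.1), s(z.2.1, z.2.2.1), s(z.1, z.2.2.2.1), s(z.2.1, z.2.2.2.1),
    s(z.2.2.1, z.2.2.2.2), s(z.2.2.2.1, z.2.2.2.2)} : Finset (Sym2 V)).image enc

theorem mem_hH {A : V → V → ℝ} {a b x y c : V} : (a, b, x, y, c) ∈ hH A ↔
    (A a b = 1 ∧ A a x = 1 ∧ A b x = 1 ∧ A a y = 1 ∧ A b y = 1 ∧ A x c = 1 ∧ A y c = 1) ∧
      x ≠ y ∧ a ≠ c ∧ b ≠ c := by
  unfold hH
  rw [mem_filter]
  exact ⟨fun h => h.2, fun h => ⟨mem_univ _, h⟩⟩

theorem hed'_card {A : V → V → ℝ} {t h : ℝ} (H : HostP A t h) (z : V × V × V × V × V)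
    (hz : z ∈ hH A) : hed' z ⊆ hU A ∧ (hed' z).card = 7 := by
  classical
  obtain ⟨a, b, x, y, c⟩ := z
  rw [mem_hH] at hz
  obtain ⟨⟨h1, h2, h3, h4, h5, h6, h7⟩, n1, n2, n3⟩ := hz
  have m1 := ne_of_A H h1
  have m2 := ne_of_A H h2
  have m3 := ne_of_A H h3
  have m4 := ne_of_A H h4
  have m5 := ne_of_A H h5
  have m6 := ne_of_A H h6
  have m7 := ne_of_A H h7
  refine ⟨?_, ?_⟩
  · unfold hed'
    intro n hn
    obtain ⟨e, he, rfl⟩ := mem_image.1 hn
    simp only [mem_insert, mem_singleton] at he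
    rcases he with rfl | rfl | rfl | rfl | rfl | rfl | rfl
    · exact (mem_hU H).2 h1
    · exact (mem_hU H).2 h2
    · exact (mem_hU H).2 h3
    · exact (mem_hU H).2 h4
    · exact (mem_hU H).2 h5
    · exact (mem_hU H).2 h6
    · exact (mem_hU H).2 h7
  · unfold hed'
    rw [card_image_of_injective _ (fun e f hef => enc_inj.1 hef)]
    simp only
    rw [card_insert_of_notMem, card_insert_of_notMem, card_insert_of_notMem,
      card_insert_of_notMem, card_insert_of_notMem, card_pair] <;>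
    · simp only [mem_insert, mem_singleton, Sym2.eq_iff, ne_eq]
      tauto

theorem hH_card {A : V → V → ℝ} {t h : ℝ} (H : HostP A t h) :
    ((hH A).card : ℝ) ≤ 2 * (hU A).card * h := by
  classical
  have h1 : ((hH A).card : ℝ) ≤ ∑ a, ∑ b, A a b * ∑ x, ∑ y, ∑ c,
      (A a x * A b x) * (A a y * A b y) * (A x c * A y c) := by
    unfold hH
    rw [card_filter]
    push_cast
    rw [Fintype.sum_prod_type]
    refine sum_le_sum fun a _ => ?_
    rw [Fintype.sum_prod_type]
    refine sum_le_sum fun b _ => ?_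
    rw [Fintype.sum_prod_type, mul_sum]
    refine sum_le_sum fun x _ => ?_
    rw [Fintype.sum_prod_type, mul_sum]
    refine sum_le_sum fun y _ => ?_
    rw [mul_sum]
    refine sum_le_sum fun c _ => ?_
    simp only
    split_ifs with hcond
    · obtain ⟨⟨h1, h2, h3, h4, h5, h6, h7⟩, _⟩ := hcond
      rw [h1, h2, h3, h4, h5, h6, h7]
      norm_num
    · have := H.nonneg
      exact mul_nonneg (this _ _) (mul_nonneg (mul_nonneg (mul_nonneg (this _ _) (this _ _))
        (mul_nonneg (this _ _) (this _ _))) (mul_nonneg (this _ _) (this _ _)))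
  refine h1.trans ?_
  refine (sum_le_sum fun a _ => sum_le_sum fun b _ => H.cnt a b).trans ?_
  simp_rw [← mul_sum]
  rw [sum_A H]
  exact le_of_eq (by ring)

theorem hU_card {A : V → V → ℝ} {t h : ℝ} (H : HostP A t h) : t ≤ (hU A).card := by
  classical
  obtain ⟨a, b, hab⟩ := H.ex
  have h1 := H.tri a b
  rw [hab, one_mul, mul_one] at h1
  have h2 : ∑ c, A a c * A b c ≤ ((univ.filter fun c => A a c = 1).card : ℝ) := by
    rw [card_filter]
    push_cast
    refine sum_le_sum fun c _ => ?_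
    rcases H.zo a c with h3 | h3 <;> rcases H.zo b c with h4 | h4 <;> rw [h3, h4] <;> norm_num
  have h3 : (univ.filter fun c => A a c = 1).card ≤ (hU A).card := by
    refine card_le_card_of_injOn (fun c => enc s(a, c)) ?_ ?_
    · intro c hc
      rw [mem_coe, mem_filter] at hc
      exact (mem_hU H).2 hc.2
    · intro c hc d hd hcd
      simp only at hcd
      rw [enc_inj, Sym2.eq_iff] at hcd
      rcases hcd with ⟨_, h4⟩ | ⟨h4, h5⟩
      · exact h4
      · rw [mem_coe, mem_filter] at hd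
        exact absurd h4 (ne_of_A H hd.2)
  have h4 : ((univ.filter fun c => A a c = 1).card : ℝ) ≤ (hU A).card := by exact_mod_cast h3
  linarith

/-- **The Folkman graph.** -/
theorem folkman : ∃ (V : Type) (_ : Fintype V) (G : SimpleGraph V),
    (∀ c : V → V → Bool, (∀ x y, G.Adj x y → c x y = c y x) →
      ∃ x y z, G.Adj x y ∧ G.Adj y z ∧ G.Adj x z ∧ c x y = c y z ∧ c y z = c x z) ∧
    ¬ ∃ a b x y c, (G.Adj a b ∧ G.Adj a x ∧ G.Adj b x ∧ G.Adj a y ∧ G.Adj b y ∧ G.Adj x c ∧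
      G.Adj y c) ∧ x ≠ y ∧ a ≠ c ∧ b ≠ c := by
  classical
  obtain ⟨j, hj, hmain⟩ := random_set
  obtain ⟨V, i1, i2, A, H⟩ := host_exists hj
  have ht : (0 : ℝ) ≤ 100 ^ j := by positivity
  obtain ⟨X, hXU, hXH, hXT⟩ := hmain (hU A) (V × V × V) (V × V × V × V × V) (hT A) hed (hH A) hed'
    (hsys H ht) (hU_card H) (hed'_card H) (hH_card H)
  let G : SimpleGraph V := {
    Adj := fun a b => enc s(a, b) ∈ X
    symm := ⟨fun a b hab => by
      rw [Sym2.eq_swap]
      exact hab⟩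
    loopless := ⟨fun a ha => by
      have := (mem_hU H).1 (hXU ha)
      rw [H.irr] at this
      norm_num at this⟩ }
  have hG : ∀ a b, G.Adj a b ↔ enc s(a, b) ∈ X := fun a b => Iff.rfl
  have hGA : ∀ a b, G.Adj a b → A a b = 1 := fun a b hab => (mem_hU H).1 (hXU hab)
  refine ⟨V, i1, G, ?_, ?_⟩
  · intro c hc
    set R := X.filter fun n => ∃ a b, n = enc s(a, b) ∧ c a b = true with hR
    have hRiff : ∀ a b, G.Adj a b → (enc s(a, b) ∈ R ↔ c a b = true) := by
      intro a b hab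
      rw [hR, mem_filter]
      constructor
      · rintro ⟨_, a', b', he, hc'⟩
        rw [enc_inj, Sym2.eq_iff] at he
        rcases he with ⟨rfl, rfl⟩ | ⟨rfl, rfl⟩
        · exact hc'
        · rw [hc a b hab]
          exact hc'
      · intro hc'
        exact ⟨hab, a, b, rfl, hc'⟩
    obtain ⟨⟨x, y, z⟩, _, h | h⟩ := hXT R (filter_subset _ _)
    · have m1 : enc s(x, y) ∈ R := h (mem_hed.2 (Or.inl rfl))
      have m2 : enc s(y, z) ∈ R := h (mem_hed.2 (Or.inr (Or.inl rfl)))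
      have m3 : enc s(x, z) ∈ R := h (mem_hed.2 (Or.inr (Or.inr rfl)))
      have g1 : G.Adj x y := (mem_filter.1 m1).1
      have g2 : G.Adj y z := (mem_filter.1 m2).1
      have g3 : G.Adj x z := (mem_filter.1 m3).1
      refine ⟨x, y, z, g1, g2, g3, ?_, ?_⟩
      · rw [(hRiff x y g1).1 m1, (hRiff y z g2).1 m2]
      · rw [(hRiff x z g3).1 m3, (hRiff y z g2).1 m2]
    · have m1 := mem_sdiff.1 (h (mem_hed.2 (Or.inl rfl)))
      have m2 := mem_sdiff.1 (h (mem_hed.2 (Or.inr (Or.inl rfl))))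
      have m3 := mem_sdiff.1 (h (mem_hed.2 (Or.inr (Or.inr rfl))))
      have g1 : G.Adj x y := m1.1
      have g2 : G.Adj y z := m2.1
      have g3 : G.Adj x z := m3.1
      have k1 : c x y = false := by
        rw [← Bool.not_eq_true, ← hRiff x y g1]
        exact m1.2
      have k2 : c y z = false := by
        rw [← Bool.not_eq_true, ← hRiff y z g2]
        exact m2.2
      have k3 : c x z = false := by
        rw [← Bool.not_eq_true, ← hRiff x z g3]
        exact m3.2
      refine ⟨x, y, z, g1, g2, g3, ?_, ?_⟩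
      · rw [k1, k2]
      · rw [k2, k3]
  · rintro ⟨a, b, x, y, c, ⟨h1, h2, h3, h4, h5, h6, h7⟩, n1, n2, n3⟩
    refine hXH (a, b, x, y, c) ?_ ?_
    · rw [mem_hH]
      exact ⟨⟨hGA _ _ h1, hGA _ _ h2, hGA _ _ h3, hGA _ _ h4, hGA _ _ h5, hGA _ _ h6,
        hGA _ _ h7⟩, n1, n2, n3⟩
    · unfold hed'
      intro n hn
      obtain ⟨e, he, rfl⟩ := mem_image.1 hn
      simp only [mem_insert, mem_singleton] at he
      rcases he with rfl | rfl | rfl | rfl | rfl | rfl | rfl
      · exact h1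
      · exact h2
      · exact h3
      · exact h4
      · exact h5
      · exact h6
      · exact h7

end Pool.Agent.N475.EF
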