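import Pool.Agent.N475.EF.Cover
/-!
# Systems of triples with few common pairs, and containers for their independent sets
-/

set_option autoImplicit false

open Finset

namespace Pool.Agent.N475.EF

open Pool.Agent.Y940.CT

/-- the number of triples inside `C` -/
noncomputable def cnt {κ : Type} (𝒯 : Finset κ) (ed : κ → Finset ℕ) (C : Finset ℕ) : ℝ :=
  ((𝒯.filter fun x => ed x ⊆ C).card : ℝ)

/-- a system of triples of `U` with supersaturation -/
structure Sys (U : Finset ℕ) {κ : Type} (𝒯 : Finset κ) (ed : κ → Finset ℕ) (t : ℝ) : Prop where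
  sub : ∀ x ∈ 𝒯, ed x ⊆ U
  card : ∀ x ∈ 𝒯, (ed x).card = 3
  total : (𝒯.card : ℝ) = 2 * U.card * t
  deg1 : ∀ v, ((𝒯.filter fun x => v ∈ ed x).card : ℝ) ≤ 6 * t
  deg2 : ∀ u v, u ≠ v → ((𝒯.filter fun x => u ∈ ed x ∧ v ∈ ed x).card : ℝ) ≤ 6
  ss : ∀ R, R ⊆ U → (𝒯.card : ℝ) / 10 ≤ cnt 𝒯 ed R + cnt 𝒯 ed (U \ R)

/-- the weights of the triples inside `C` -/
noncomputable def tw {κ : Type} (𝒯 : Finset κ) (ed : κ → Finset ℕ) (C e : Finset ℕ) : ℝ :=
  if e ⊆ C then ((𝒯.filter fun x => ed x = e).card : ℝ) else 0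

theorem tw_total {κ : Type} (𝒯 : Finset κ) (ed : κ → Finset ℕ) (C : Finset ℕ) :
    ∑ e ∈ C.powerset, tw 𝒯 ed C e = cnt 𝒯 ed C := by
  classical
  unfold cnt tw
  rw [sum_congr rfl (fun e he => if_pos (mem_powerset.1 he))]
  have h := card_eq_sum_card_fiberwise (f := ed) (s := 𝒯.filter fun x => ed x ⊆ C)
    (t := C.powerset) (fun x hx => by
      rw [mem_coe, mem_filter] at hx
      rw [mem_coe, mem_powerset]
      exact hx.2)
  rw [h]
  push_cast
  refine sum_congr rfl fun e he => ?_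
  congr 2
  ext x
  simp only [mem_filter]
  constructor
  · rintro ⟨h1, h2⟩
    exact ⟨⟨h1, h2 ▸ mem_powerset.1 he⟩, h2⟩
  · rintro ⟨⟨h1, _⟩, h2⟩
    exact ⟨h1, h2⟩

theorem tw_deg {κ : Type} (𝒯 : Finset κ) (ed : κ → Finset ℕ) (C J : Finset ℕ) :
    deg C (tw 𝒯 ed C) J ≤ ((𝒯.filter fun x => J ⊆ ed x).card : ℝ) := by
  classical
  unfold deg
  rw [← sum_filter]
  have h1 : ∀ e ∈ C.powerset.filter (fun e => J ⊆ e), tw 𝒯 ed C e =
      (((𝒯.filter fun x => J ⊆ ed x ∧ ed x ⊆ C).filter fun x => ed x = e).card : ℝ) := by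
    intro e he
    obtain ⟨h2, h3⟩ := mem_filter.1 he
    unfold tw
    rw [if_pos (mem_powerset.1 h2)]
    congr 2
    ext x
    simp only [mem_filter]
    constructor
    · rintro ⟨h4, rfl⟩
      exact ⟨⟨h4, h3, mem_powerset.1 h2⟩, rfl⟩
    · rintro ⟨⟨h4, _⟩, h5⟩
      exact ⟨h4, h5⟩
  rw [sum_congr rfl h1]
  have h := card_eq_sum_card_fiberwise (f := ed) (s := 𝒯.filter fun x => J ⊆ ed x ∧ ed x ⊆ C)
    (t := C.powerset.filter fun e => J ⊆ e) (fun x hx => by
      rw [mem_coe, mem_filter] at hx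
      rw [mem_coe, mem_filter, mem_powerset]
      exact ⟨hx.2.2, hx.2.1⟩)
  have h2 : ((𝒯.filter fun x => J ⊆ ed x ∧ ed x ⊆ C).card : ℝ) ≤
      ((𝒯.filter fun x => J ⊆ ed x).card : ℝ) := by
    exact_mod_cast card_le_card fun x hx => by
      rw [mem_filter] at hx ⊢
      exact ⟨hx.1, hx.2.1⟩
  refine le_trans (le_of_eq ?_) h2
  rw [h]
  push_cast
  rfl

theorem tw_nonneg {κ : Type} (𝒯 : Finset κ) (ed : κ → Finset ℕ) (C e : Finset ℕ) :
    0 ≤ tw 𝒯 ed C e := by
  unfold tw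
  split_ifs
  · positivity
  · exact le_rfl

/-- sets with no triple are independent for the weights -/
theorem tw_ind {κ : Type} {𝒯 : Finset κ} {ed : κ → Finset ℕ} {C I : Finset ℕ}
    (h : ∀ x ∈ 𝒯, ¬ ed x ⊆ I) : Ind (tw 𝒯 ed C) I := by
  intro e he
  unfold tw
  split_ifs
  · rw [Nat.cast_eq_zero, card_eq_zero, filter_eq_empty_iff]
    rintro x hx rfl
    exact h x hx he
  · rfl

theorem cnt_le_card {U : Finset ℕ} {κ : Type} {𝒯 : Finset κ} {ed : κ → Finset ℕ} {t : ℝ}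
    (hS : Sys U 𝒯 ed t) (C : Finset ℕ) : cnt 𝒯 ed C ≤ C.card * (6 * t) := by
  classical
  have h1 : (𝒯.filter fun x => ed x ⊆ C) ⊆ C.biUnion fun v => 𝒯.filter fun x => v ∈ ed x := by
    intro x hx
    obtain ⟨h2, h3⟩ := mem_filter.1 hx
    have h4 : (ed x).Nonempty := by
      rw [← card_pos, hS.card x h2]
      norm_num
    obtain ⟨v, hv⟩ := h4
    rw [mem_biUnion]
    exact ⟨v, h3 hv, mem_filter.2 ⟨h2, hv⟩⟩
  have h2 : cnt 𝒯 ed C ≤ ∑ v ∈ C, ((𝒯.filter fun x => v ∈ ed x).card : ℝ) := by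
    unfold cnt
    exact_mod_cast (card_le_card h1).trans card_biUnion_le
  refine h2.trans ?_
  rw [← nsmul_eq_mul, ← sum_const]
  exact sum_le_sum fun v _ => hS.deg1 v

/-- a set with many triples carries a well distributed system -/
theorem spread {U : Finset ℕ} {κ : Type} {𝒯 : Finset κ} {ed : κ → Finset ℕ} {t η τ : ℝ}
    (hS : Sys U 𝒯 ed t) (hη : 0 < η) (ht : 1 ≤ t) (hτ0 : 0 < τ) (hτ1 : τ ≤ 1)
    (htτ : t * τ ^ 2 = 1) {C : Finset ℕ} (hC : C ⊆ U)
    (hbig : η * 𝒯.card < cnt 𝒯 ed C) :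
    Spread C 3 (tw 𝒯 ed C) (2 * η * t) (3 / η) τ := by
  classical
  have hKD : 3 / η * (2 * η * t) = 6 * t := by
    field_simp
    ring
  refine ⟨tw_nonneg 𝒯 ed C, ?_, ?_, ?_⟩
  · intro e he
    unfold tw at he
    split_ifs at he with h1
    · have h2 : (𝒯.filter fun x => ed x = e).Nonempty := by
        rw [← card_pos]
        rcases Nat.eq_zero_or_pos (𝒯.filter fun x => ed x = e).card with h3 | h3
        · rw [h3] at he
          simp at he
        · exact h3
      obtain ⟨x, hx⟩ := h2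
      obtain ⟨h3, rfl⟩ := mem_filter.1 hx
      exact ⟨h1, hS.card x h3⟩
    · exact absurd rfl he
  · rw [tw_total]
    have h1 : (C.card : ℝ) ≤ U.card := by exact_mod_cast card_le_card hC
    have h2 := hS.total
    calc (C.card : ℝ) * (2 * η * t) ≤ U.card * (2 * η * t) :=
          mul_le_mul_of_nonneg_right h1 (by positivity)
      _ = η * 𝒯.card := by rw [h2]; ring
      _ ≤ cnt 𝒯 ed C := hbig.le
  · intro J hJ
    rw [hKD]
    have hd := tw_deg 𝒯 ed C J
    have htτ1 : 1 ≤ t * τ := by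
      have : t * τ ^ 2 ≤ t * τ := by
        have h1 : τ ^ 2 ≤ τ := by nlinarith
        exact mul_le_mul_of_nonneg_left h1 (by linarith)
      linarith
    rcases Nat.lt_or_ge 3 J.card with h4 | h4
    · have h5 : 𝒯.filter (fun x => J ⊆ ed x) = ∅ := by
        rw [filter_eq_empty_iff]
        intro x hx hJx
        have := card_le_card hJx
        rw [hS.card x hx] at this
        omega
      rw [h5, card_empty, Nat.cast_zero] at hd
      have h6 : deg C (tw 𝒯 ed C) J * τ ≤ 0 := mul_nonpos_of_nonpos_of_nonneg hd hτ0.le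
      exact h6.trans (by positivity)
    · have hpos : 0 < J.card := card_pos.2 hJ
      rcases Nat.lt_or_ge 1 J.card with h5 | h5
      · obtain ⟨u, hu, v, hv, huv⟩ := one_lt_card.1 h5
        have h6 : ((𝒯.filter fun x => J ⊆ ed x).card : ℝ) ≤
            ((𝒯.filter fun x => u ∈ ed x ∧ v ∈ ed x).card : ℝ) := by
          exact_mod_cast card_le_card fun x hx => by
            rw [mem_filter] at hx ⊢
            exact ⟨hx.1, hx.2 hu, hx.2 hv⟩
        have h7 := hd.trans (h6.trans (hS.deg2 u v huv))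
        have h8 : 1 ≤ t * τ ^ 2 := htτ.ge
        have h9 : τ ≤ t * τ ^ J.card := by
          have h10 : τ ^ 3 ≤ τ ^ J.card := pow_le_pow_of_le_one hτ0.le hτ1 h4
          calc τ = (t * τ ^ 2) * τ := by rw [htτ]; ring
            _ = t * τ ^ 3 := by ring
            _ ≤ t * τ ^ J.card := mul_le_mul_of_nonneg_left h10 (by linarith)
        calc deg C (tw 𝒯 ed C) J * τ ≤ 6 * τ := mul_le_mul_of_nonneg_right h7 hτ0.le
          _ ≤ 6 * (t * τ ^ J.card) := by linarith
          _ = _ := by ring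
      · have h6 : J.card = 1 := by omega
        obtain ⟨v, rfl⟩ := card_eq_one.1 h6
        have h7 : deg C (tw 𝒯 ed C) {v} ≤ 6 * t := by
          refine hd.trans (le_trans (le_of_eq ?_) (hS.deg1 v))
          congr 2
          ext x
          rw [mem_filter, mem_filter, singleton_subset_iff]
        rw [card_singleton, pow_one]
        exact mul_le_mul_of_nonneg_right h7 hτ0.le

/-- two sets with few triples leave many elements uncovered -/
theorem uncovered {U : Finset ℕ} {κ : Type} {𝒯 : Finset κ} {ed : κ → Finset ℕ} {t : ℝ}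
    (hS : Sys U 𝒯 ed t) (ht : 0 < t) {C D : Finset ℕ} (hC : C ⊆ U)
    (h1 : cnt 𝒯 ed C ≤ 1 / 40 * 𝒯.card) (h2 : cnt 𝒯 ed D ≤ 1 / 40 * 𝒯.card) :
    (U.card : ℝ) / 60 ≤ (U \ (C ∪ D)).card := by
  classical
  have h3 := hS.ss C hC
  have h4 : cnt 𝒯 ed (U \ C) ≤ cnt 𝒯 ed D + (U \ (C ∪ D)).card * (6 * t) := by
    have h5 : (𝒯.filter fun x => ed x ⊆ U \ C) ⊆ (𝒯.filter fun x => ed x ⊆ D) ∪
        (U \ (C ∪ D)).biUnion fun v => 𝒯.filter fun x => v ∈ ed x := by
      intro x hx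
      obtain ⟨h6, h7⟩ := mem_filter.1 hx
      rw [mem_union]
      by_cases h8 : ed x ⊆ D
      · left
        exact mem_filter.2 ⟨h6, h8⟩
      · right
        rw [not_subset] at h8
        obtain ⟨v, hv, hvD⟩ := h8
        rw [mem_biUnion]
        refine ⟨v, ?_, mem_filter.2 ⟨h6, hv⟩⟩
        have h9 := h7 hv
        rw [mem_sdiff] at h9 ⊢
        refine ⟨h9.1, fun h10 => ?_⟩
        rcases mem_union.1 h10 with h11 | h11
        · exact h9.2 h11
        · exact hvD h11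
    have h6 : cnt 𝒯 ed (U \ C) ≤ cnt 𝒯 ed D +
        ∑ v ∈ U \ (C ∪ D), ((𝒯.filter fun x => v ∈ ed x).card : ℝ) := by
      unfold cnt
      exact_mod_cast (card_le_card h5).trans ((card_union_le _ _).trans
        (Nat.add_le_add_left card_biUnion_le _))
    refine h6.trans ?_
    have h7 : ∑ v ∈ U \ (C ∪ D), ((𝒯.filter fun x => v ∈ ed x).card : ℝ) ≤
        (U \ (C ∪ D)).card * (6 * t) := by
      rw [← nsmul_eq_mul, ← sum_const]
      exact sum_le_sum fun v _ => hS.deg1 v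
    linarith
  have h5 := hS.total
  have h6 : (U.card : ℝ) / 60 * (6 * t) ≤ (U \ (C ∪ D)).card * (6 * t) := by
    have h7 : (U.card : ℝ) / 60 * (6 * t) = 1 / 20 * 𝒯.card := by
      rw [h5]
      ring
    rw [h7]
    linarith
  exact le_of_mul_le_mul_right h6 (by positivity)

end Pool.Agent.N475.EF
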